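import Mathlib

/-!
Graph pebbling: definitions.
-/

namespace Pool.Agent.Lib.MP_ef3cf3_co

variable {V : Type} [Fintype V] [DecidableEq V]

/-- `Step G C C'`: the configuration `C'` arises from `C` by one pebbling step `u ↦ v` along an
edge `uv` of `G`; the step needs `C u ≥ 2`, lowers the value at `u` by `2` and raises the value at
`v` by `1`. -/
def Step (G : SimpleGraph V) (C C' : V → ℕ) : Prop :=
  ∃ u v, G.Adj u v ∧ 2 ≤ C u ∧ C' = C - Pi.single u 2 + Pi.single v 1

/-- `C` is `D`-solvable: some sequence of pebbling steps leads from `C` to a configuration with at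
least `D v` pebbles on every vertex `v`. -/
def Solvable (G : SimpleGraph V) (C D : V → ℕ) : Prop :=
  ∃ C', Relation.ReflTransGen (Step G) C C' ∧ ∀ v, D v ≤ C' v

/-- The `D`-pebbling number `π(G, D)`: the least `m` such that every configuration with at least
`m` pebbles is `D`-solvable. -/
noncomputable def pebblingNumber (G : SimpleGraph V) (D : V → ℕ) : ℕ :=
  sInf {m | ∀ C : V → ℕ, m ≤ ∑ v, C v → Solvable G C D}

/-- The `t`-fold pebbling number `π_t(G)`: the maximum over the vertices `r` of `π(G, t r)`. -/
noncomputable def foldNumber (G : SimpleGraph V) (t : ℕ) : ℕ :=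
  Finset.univ.sup fun r => pebblingNumber G (Pi.single r t)

/-- The support size `s(D)`. -/
def supportSize (D : V → ℕ) : ℕ := (Finset.univ.filter fun v => 0 < D v).card

end Pool.Agent.Lib.MP_ef3cf3_co
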