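import Pool.Agent.Lib.MP_ef3cf3_co.Defs

section

/-!
Graph pebbling: basic facts.
-/

namespace Pool.Agent.Lib.MP_ef3cf3_co

open Finset Relation

variable {V : Type} [Fintype V] [DecidableEq V] {G : SimpleGraph V}

omit [Fintype V] in
lemma step_iff {C C' : V → ℕ} : Step G C C' ↔
    ∃ (A : V → ℕ) (u v : V), G.Adj u v ∧ C = A + Pi.single u 2 ∧ C' = A + Pi.single v 1 := by
  constructor
  · rintro ⟨u, v, h, h2, rfl⟩
    refine ⟨C - Pi.single u 2, u, v, h, ?_, rfl⟩
    funext w
    simp only [Pi.add_apply, Pi.sub_apply]
    by_cases hw : w = u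
    · subst hw
      simp only [Pi.single_eq_same]
      omega
    · simp [Pi.single_eq_of_ne hw]
  · rintro ⟨A, u, v, h, rfl, rfl⟩
    refine ⟨u, v, h, ?_, ?_⟩
    · simp
    · rw [add_tsub_cancel_right]

omit [Fintype V] in
lemma reach_add {C C' : V → ℕ} (h : ReflTransGen (Step G) C C') (E : V → ℕ) :
    ReflTransGen (Step G) (C + E) (C' + E) := by
  induction h with
  | refl => exact .refl
  | tail _ hs ih =>
    refine ih.tail ?_
    rw [step_iff] at hs ⊢
    obtain ⟨A, u, v, h, rfl, rfl⟩ := hs
    exact ⟨A + E, u, v, h, by abel, by abel⟩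

omit [Fintype V] in
lemma solvable_of_le {C D : V → ℕ} (h : D ≤ C) : Solvable G C D := ⟨C, .refl, h⟩

omit [Fintype V] in
lemma Solvable.mono {C C₁ D D₁ : V → ℕ} (h : Solvable G C D) (hC : C ≤ C₁) (hD : D₁ ≤ D) :
    Solvable G C₁ D₁ := by
  obtain ⟨C', h1, h2⟩ := h
  refine ⟨C' + (C₁ - C), ?_, fun v => ?_⟩
  · have := reach_add h1 (C₁ - C)
    rwa [add_tsub_cancel_of_le hC] at this
  · exact (hD v).trans ((h2 v).trans (by simp))

omit [Fintype V] in
lemma Solvable.add {C D E F : V → ℕ} (h : Solvable G C D) (h' : Solvable G E F) :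
    Solvable G (C + E) (D + F) := by
  obtain ⟨C', h1, h2⟩ := h
  obtain ⟨E', h3, h4⟩ := h'
  refine ⟨C' + E', (reach_add h1 E).trans ?_, fun v => Nat.add_le_add (h2 v) (h4 v)⟩
  have := reach_add h3 C'
  rwa [add_comm E C', add_comm E' C'] at this

omit [Fintype V] in
lemma Solvable.head {C C₁ D : V → ℕ} (h : Step G C C₁) (h' : Solvable G C₁ D) :
    Solvable G C D := by
  obtain ⟨C', h1, h2⟩ := h'
  exact ⟨C', .head h h1, h2⟩

omit [Fintype V] in
lemma Solvable.sum {ι : Type*} (s : Finset ι) (c E : ι → V → ℕ)
    (h : ∀ i ∈ s, Solvable G (c i) (E i)) : Solvable G (∑ i ∈ s, c i) (∑ i ∈ s, E i) := by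
  classical
  induction s using Finset.induction_on with
  | empty => exact solvable_of_le (by simp)
  | insert a s ha ih =>
    rw [Finset.sum_insert ha, Finset.sum_insert ha]
    exact (h a (by simp)).add (ih fun i hi => h i (by simp [hi]))

omit [Fintype V] in
/-- Decomposition of a solution. -/
lemma Solvable.decomp {ι : Type*} [Fintype ι] [DecidableEq ι] {C : V → ℕ} (E : ι → V → ℕ)
    (h : Solvable G C (∑ i, E i)) :
    ∃ c : ι → V → ℕ, ∑ i, c i ≤ C ∧ ∀ i, Solvable G (c i) (E i) := by
  obtain ⟨C', h1, h2⟩ := h
  induction h1 using ReflTransGen.head_induction_on with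
  | refl => exact ⟨E, h2, fun i => solvable_of_le le_rfl⟩
  | head hs _ ih =>
    obtain ⟨c, hc, hsol⟩ := ih
    have hs' := hs
    rw [step_iff] at hs
    obtain ⟨A, u, v, hadj, rfl, rfl⟩ := hs
    by_cases hA : ∑ i, c i ≤ A
    · exact ⟨c, hA.trans (by simp), hsol⟩
    · have hv : A v < (∑ i, c i) v := by
        by_contra hv
        push Not at hv
        apply hA
        intro w
        by_cases hw : w = v
        · subst hw; exact hv
        · have := hc w
          simpa [Pi.single_eq_of_ne hw] using this
      obtain ⟨i₀, hi₀⟩ : ∃ i₀, 1 ≤ c i₀ v := by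
        by_contra hcon
        push Not at hcon
        have : (∑ i, c i) v = 0 := by
          rw [Finset.sum_apply]
          exact Finset.sum_eq_zero fun i _ => by have := hcon i; omega
        omega
      have hsplit : c i₀ = (c i₀ - Pi.single v 1) + Pi.single v 1 := by
        rw [tsub_add_cancel_of_le]
        intro w
        by_cases hw : w = v
        · subst hw; simpa using hi₀
        · simp [Pi.single_eq_of_ne hw]
      refine ⟨Function.update c i₀ ((c i₀ - Pi.single v 1) + Pi.single u 2), ?_, ?_⟩
      · have e1 : ∑ i, Function.update c i₀ ((c i₀ - Pi.single v 1) + Pi.single u 2) i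
            = ((c i₀ - Pi.single v 1) + Pi.single u 2) + ∑ i ∈ univ \ {i₀}, c i := by
          rw [Finset.sum_update_of_mem (Finset.mem_univ _)]
        have e2 : ∑ i, c i = c i₀ + ∑ i ∈ univ \ {i₀}, c i := by
          have := Finset.sum_update_of_mem (Finset.mem_univ i₀) c (c i₀)
          rwa [Function.update_eq_self] at this
        rw [e1]
        rw [e2, hsplit] at hc
        have hc' : (c i₀ - Pi.single v 1) + (∑ i ∈ univ \ {i₀}, c i) ≤ A := by
          intro w
          have := hc w
          simp only [Pi.add_apply] at this ⊢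
          omega
        calc ((c i₀ - Pi.single v 1) + Pi.single u 2) + ∑ i ∈ univ \ {i₀}, c i
            = ((c i₀ - Pi.single v 1) + ∑ i ∈ univ \ {i₀}, c i) + Pi.single u 2 :=
              add_right_comm _ _ _
          _ ≤ A + Pi.single u 2 := add_le_add_left hc' _
      · intro i
        by_cases hi : i = i₀
        · subst hi
          rw [Function.update_self]
          refine Solvable.head ?_ (hsol i)
          rw [step_iff]
          exact ⟨_, u, v, hadj, rfl, hsplit⟩
        · rw [Function.update_of_ne hi]
          exact hsol i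

omit [Fintype V] in
/-- Removing one pebble loses at most one unit of the demand. -/
lemma Solvable.remove {X D : V → ℕ} (h : Solvable G X D) : ∀ (c : V → ℕ) (b : V),
    X ≤ c + Pi.single b 1 →
    Solvable G c D ∨ ∃ v, 1 ≤ D v ∧ Solvable G c (D - Pi.single v 1) := by
  obtain ⟨C', h1, h2⟩ := h
  induction h1 using ReflTransGen.head_induction_on with
  | refl =>
    intro c b hX
    by_cases hD : D ≤ c
    · exact Or.inl (solvable_of_le hD)
    · right
      have hb : c b < D b := by
        by_contra hb
        push Not at hb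
        apply hD
        intro w
        by_cases hw : w = b
        · subst hw; exact hb
        · have := (h2 w).trans (hX w)
          simpa [Pi.single_eq_of_ne hw] using this
      refine ⟨b, by omega, solvable_of_le ?_⟩
      intro w
      have := (h2 w).trans (hX w)
      simp only [Pi.add_apply, Pi.sub_apply] at this ⊢
      omega
  | head hs _ ih =>
    intro c b hX
    rw [step_iff] at hs
    obtain ⟨A, x, y, hadj, rfl, rfl⟩ := hs
    by_cases hcx : 2 ≤ c x
    · have hstep : Step G c (c - Pi.single x 2 + Pi.single y 1) := ⟨x, y, hadj, hcx, rfl⟩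
      have hle : A + Pi.single y 1 ≤ (c - Pi.single x 2 + Pi.single y 1) + Pi.single b 1 := by
        intro w
        have := hX w
        simp only [Pi.add_apply, Pi.sub_apply] at this ⊢
        by_cases hw : w = x
        · subst hw
          simp only [Pi.single_eq_same] at this ⊢
          omega
        · simp only [Pi.single_eq_of_ne hw] at this ⊢
          omega
      rcases ih _ b hle with h | ⟨v, hv, h⟩
      · exact Or.inl (h.head hstep)
      · exact Or.inr ⟨v, hv, h.head hstep⟩
    · have hxb : x = b := by
        by_contra hne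
        have := hX x
        simp [Pi.single_eq_of_ne hne] at this
        omega
      subst hxb
      have hle : A + Pi.single y 1 ≤ c + Pi.single y 1 := by
        refine add_le_add_left ?_ _
        intro w
        have := hX w
        show A w ≤ c w
        simp only [Pi.add_apply] at this
        by_cases hw : w = x
        · subst hw
          simp only [Pi.single_eq_same] at this
          omega
        · simp only [Pi.single_eq_of_ne hw] at this
          omega
      exact ih c y hle

omit [Fintype V] in
/-- Removing one extra pebble at `u`, where there is no demand: either nothing is lost, or one unit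
of the demand may be moved to `u`. -/
lemma Solvable.shift {X D : V → ℕ} (h : Solvable G X D) : ∀ (c : V → ℕ) (u : V), D u = 0 →
    X ≤ c + Pi.single u 1 →
    Solvable G c D ∨ ∃ v, 1 ≤ D v ∧ Solvable G c (D - Pi.single v 1 + Pi.single u 1) := by
  obtain ⟨C', h1, h2⟩ := h
  induction h1 using ReflTransGen.head_induction_on with
  | refl =>
    intro c u hu hX
    left
    refine solvable_of_le fun w => ?_
    show D w ≤ c w
    by_cases hw : w = u
    · subst hw; omega
    · have := (h2 w).trans (hX w)
      simpa [Pi.single_eq_of_ne hw] using this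
  | head hs htail ih =>
    intro c u hu hX
    rw [step_iff] at hs
    obtain ⟨A, x, y, hadj, rfl, rfl⟩ := hs
    by_cases hcx : 2 ≤ c x
    · have hstep : Step G c (c - Pi.single x 2 + Pi.single y 1) := ⟨x, y, hadj, hcx, rfl⟩
      have hle : A + Pi.single y 1 ≤ (c - Pi.single x 2 + Pi.single y 1) + Pi.single u 1 := by
        intro w
        have := hX w
        simp only [Pi.add_apply, Pi.sub_apply] at this ⊢
        by_cases hw : w = x
        · subst hw
          simp only [Pi.single_eq_same] at this ⊢
          omega
        · simp only [Pi.single_eq_of_ne hw] at this ⊢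
          omega
      rcases ih _ u hu hle with h | ⟨v, hv, h⟩
      · exact Or.inl (h.head hstep)
      · exact Or.inr ⟨v, hv, h.head hstep⟩
    · have hxu : x = u := by
        by_contra hne
        have := hX x
        simp [Pi.single_eq_of_ne hne] at this
        omega
      subst hxu
      -- here `c x = 1` and `A x = 0`
      have hcx1 : c x = 1 := by
        have := hX x
        simp at this
        omega
      have hsplit : c = (c - Pi.single x 1) + Pi.single x 1 := by
        rw [tsub_add_cancel_of_le]
        intro w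
        by_cases hw : w = x
        · subst hw; simp [hcx1]
        · simp [Pi.single_eq_of_ne hw]
      have hle : A + Pi.single y 1 ≤ (c - Pi.single x 1) + Pi.single y 1 := by
        refine add_le_add_left ?_ _
        intro w
        have := hX w
        simp only [Pi.add_apply, Pi.sub_apply] at this ⊢
        by_cases hw : w = x
        · subst hw
          simp only [Pi.single_eq_same] at this ⊢
          omega
        · simp only [Pi.single_eq_of_ne hw] at this ⊢
          omega
      have hrem := Solvable.remove (⟨C', htail, h2⟩ : Solvable G _ D) _ y hle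
      rcases hrem with h | ⟨v, hv, h⟩
      · left
        exact h.mono tsub_le_self le_rfl
      · right
        refine ⟨v, hv, ?_⟩
        rw [hsplit]
        have hx : Solvable G (Pi.single x 1 : V → ℕ) (Pi.single x 1) := solvable_of_le le_rfl
        exact h.add hx

end Pool.Agent.Lib.MP_ef3cf3_co
end

section

/-!
Graph pebbling: direct deliveries, truncation, and the trivial lower bound.
-/

namespace Pool.Agent.Lib.MP_ef3cf3_co

open Finset Relation

variable {V : Type} [Fintype V] [DecidableEq V] {G : SimpleGraph V}

omit [Fintype V] in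
lemma Solvable.trans {C D E : V → ℕ} (h : Solvable G C D) (h' : Solvable G D E) :
    Solvable G C E := by
  obtain ⟨C', h1, h2⟩ := h
  obtain ⟨D', h3, h4⟩ := h'
  refine ⟨D' + (C' - D), h1.trans ?_, fun v => (h4 v).trans (by simp)⟩
  have := reach_add h3 (C' - D)
  rwa [add_tsub_cancel_of_le (show D ≤ C' from h2)] at this

omit [Fintype V] in
lemma solvable_edge {v w : V} (h : G.Adj v w) (a : ℕ) :
    Solvable G (Pi.single v (a * 2)) (Pi.single w a) := by
  induction a with
  | zero => exact solvable_of_le (by simp)
  | succ a ih =>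
    have h1 : Solvable G (Pi.single v 2 : V → ℕ) (Pi.single w 1) := by
      refine Solvable.head (C₁ := Pi.single w 1) ?_ (solvable_of_le le_rfl)
      rw [step_iff]
      exact ⟨0, v, w, h, by simp, by simp⟩
    have h2 := ih.add h1
    rwa [← Pi.single_add, ← Pi.single_add, ← Nat.succ_mul] at h2

omit [Fintype V] in
lemma solvable_walk {v w : V} (p : G.Walk v w) : ∀ (k : ℕ), p.length ≤ k → ∀ m : ℕ,
    Solvable G (Pi.single v (m * 2 ^ k)) (Pi.single w m) := by
  induction p with
  | nil =>
    intro k _ m
    refine solvable_of_le ?_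
    rw [Pi.single_le_single]
    exact Nat.le_mul_of_pos_right _ (by positivity)
  | cons h p ih =>
    intro k hk m
    rw [SimpleGraph.Walk.length_cons] at hk
    obtain ⟨k, rfl⟩ : ∃ k', k = k' + 1 := ⟨k - 1, by omega⟩
    have h1 := solvable_edge h (m * 2 ^ k)
    have h2 := ih k (by omega) m
    have e : m * 2 ^ k * 2 = m * 2 ^ (k + 1) := by rw [pow_succ, mul_assoc]
    rw [e] at h1
    exact h1.trans h2

omit [Fintype V] in
lemma solvable_dist (hG : G.Connected) {d : ℕ} (v w : V) (h : G.dist v w ≤ d) :
    Solvable G (Pi.single v (2 ^ d)) (Pi.single w 1) := by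
  obtain ⟨p, hp⟩ := hG.exists_walk_length_eq_dist v w
  have := solvable_walk p d (by omega) 1
  rwa [one_mul] at this

omit [Fintype V] in
lemma split_single {D : V → ℕ} {u : V} {a : ℕ} (h : a ≤ D u) :
    D = (D - Pi.single u a) + Pi.single u a := by
  rw [tsub_add_cancel_of_le]
  intro w
  by_cases hw : w = u
  · subst hw; simpa using h
  · simp [Pi.single_eq_of_ne hw]

lemma sum_sub_single {D : V → ℕ} {u : V} {a : ℕ} (h : a ≤ D u) :
    ∑ v, D v = (∑ v, (D - Pi.single u a : V → ℕ) v) + a := by
  conv_lhs => rw [split_single h]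
  simp only [Pi.add_apply]
  rw [Finset.sum_add_distrib]
  simp

/-- Arbitrary deliveries from a large configuration. -/
lemma deliver_arb (hG : G.Connected) {d : ℕ} (hd : ∀ v w, G.dist v w ≤ d) :
    ∀ (k : ℕ) (C D : V → ℕ), ∑ v, D v = k →
    2 ^ d * k + (Fintype.card V - 1) * (2 ^ d - 1) ≤ ∑ v, C v → Solvable G C D := by
  intro k
  induction k with
  | zero =>
    intro C D hD _
    refine solvable_of_le fun v => ?_
    show D v ≤ C v
    have := (Finset.sum_eq_zero_iff.1 hD) v (Finset.mem_univ v)
    omega
  | succ k ih =>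
    intro C D hD hC
    obtain ⟨u, hu⟩ : ∃ u, 1 ≤ D u := by
      by_contra hcon
      push Not at hcon
      have : ∑ v, D v = 0 := Finset.sum_eq_zero fun v _ => by have := hcon v; omega
      omega
    have hq : 1 ≤ 2 ^ d := Nat.one_le_two_pow
    obtain ⟨v, hv⟩ : ∃ v, 2 ^ d ≤ C v := by
      by_contra hcon
      push Not at hcon
      have h1 : ∑ v, C v ≤ ∑ _v : V, (2 ^ d - 1) :=
        Finset.sum_le_sum fun v _ => by have := hcon v; omega
      rw [Finset.sum_const, Finset.card_univ, smul_eq_mul] at h1
      have hn : 1 ≤ Fintype.card V := Fintype.card_pos_iff.2 ⟨u⟩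
      obtain ⟨n, hn'⟩ : ∃ n, Fintype.card V = n + 1 := ⟨Fintype.card V - 1, by omega⟩
      rw [hn'] at h1 hC
      simp only [Nat.add_sub_cancel] at hC
      have e1 : 2 ^ d * (k + 1) = 2 ^ d * k + 2 ^ d := by ring
      have e2 : (n + 1) * (2 ^ d - 1) = n * (2 ^ d - 1) + (2 ^ d - 1) := by ring
      rw [e1] at hC
      rw [e2] at h1
      have : 0 ≤ 2 ^ d * k := Nat.zero_le _
      omega
    have hC' := sum_sub_single hv
    have hD' := sum_sub_single hu
    have h1 := ih (C - Pi.single v (2 ^ d)) (D - Pi.single u 1) (by omega) (by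
      have e1 : 2 ^ d * (k + 1) = 2 ^ d * k + 2 ^ d := by ring
      rw [e1] at hC
      omega)
    have h2 := h1.add (solvable_dist hG v u (hd v u))
    rw [← split_single hv, ← split_single hu] at h2
    exact h2

/-- Exact deliveries from a configuration all of whose entries are divisible by `2^d`. -/
lemma deliver_exact (hG : G.Connected) {d : ℕ} (hd : ∀ v w, G.dist v w ≤ d) :
    ∀ (k : ℕ) (C D : V → ℕ), ∑ v, D v = k → (∀ v, 2 ^ d ∣ C v) →
    2 ^ d * k ≤ ∑ v, C v → Solvable G C D := by
  intro k
  induction k with
  | zero =>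
    intro C D hD _ _
    refine solvable_of_le fun v => ?_
    show D v ≤ C v
    have := (Finset.sum_eq_zero_iff.1 hD) v (Finset.mem_univ v)
    omega
  | succ k ih =>
    intro C D hD hdiv hC
    obtain ⟨u, hu⟩ : ∃ u, 1 ≤ D u := by
      by_contra hcon
      push Not at hcon
      have : ∑ v, D v = 0 := Finset.sum_eq_zero fun v _ => by have := hcon v; omega
      omega
    have hq : 1 ≤ 2 ^ d := Nat.one_le_two_pow
    have e1 : 2 ^ d * (k + 1) = 2 ^ d * k + 2 ^ d := by ring
    rw [e1] at hC
    obtain ⟨v, hv⟩ : ∃ v, 1 ≤ C v := by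
      by_contra hcon
      push Not at hcon
      have : ∑ v, C v = 0 := Finset.sum_eq_zero fun v _ => by have := hcon v; omega
      omega
    have hv' : 2 ^ d ≤ C v := Nat.le_of_dvd hv (hdiv v)
    have hC' := sum_sub_single hv'
    have hD' := sum_sub_single hu
    have h1 := ih (C - Pi.single v (2 ^ d)) (D - Pi.single u 1) (by omega) (by
      intro w
      by_cases hw : w = v
      · subst hw
        simp only [Pi.sub_apply, Pi.single_eq_same]
        exact Nat.dvd_sub (hdiv w) (dvd_refl _)
      · simp [Pi.single_eq_of_ne hw, hdiv w]) (by omega)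
    have h2 := h1.add (solvable_dist hG v u (hd v u))
    rw [← split_single hv', ← split_single hu] at h2
    exact h2

/-- The indicator function of a finite set. -/
def ind (J : Finset V) : V → ℕ := fun v => if v ∈ J then 1 else 0

omit [Fintype V] in
/-- Truncation. -/
lemma truncate_aux (r : V) (C : V → ℕ) (S : Finset V) : ∀ (J₀ : Finset V) (k : ℕ),
    Disjoint S J₀ → r ∉ S → r ∉ J₀ → Solvable G (C + ind S) (Pi.single r k + ind J₀) →
    ∃ J ⊆ S ∪ J₀, ∃ k', k' + J.card = k + J₀.card ∧ Solvable G C (Pi.single r k' + ind J) := by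
  induction S using Finset.induction_on with
  | empty =>
    intro J₀ k _ _ _ h
    refine ⟨J₀, by simp, k, rfl, ?_⟩
    have : C + ind (∅ : Finset V) = C := by
      funext w; simp [ind]
    rwa [this] at h
  | insert u S hu ih =>
    intro J₀ k hdisj hrS hrJ h
    have huJ : u ∉ J₀ := Finset.disjoint_left.1 hdisj (Finset.mem_insert_self u S)
    have hur : u ≠ r := fun h' => hrS (by rw [← h']; exact Finset.mem_insert_self u S)
    have hdisj' : Disjoint S J₀ := Finset.disjoint_of_subset_left (Finset.subset_insert _ _) hdisj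
    have hrS' : r ∉ S := fun h' => hrS (Finset.mem_insert_of_mem h')
    have e : C + ind (insert u S) = (C + ind S) + Pi.single u 1 := by
      funext w
      simp only [Pi.add_apply, ind, Finset.mem_insert]
      by_cases hw : w = u
      · subst hw; simp [hu]
      · simp [hw, Pi.single_eq_of_ne hw]
    rw [e] at h
    have hDu : (Pi.single r k + ind J₀ : V → ℕ) u = 0 := by
      simp [ind, huJ, Pi.single_eq_of_ne hur]
    rcases h.shift _ u hDu le_rfl with h | ⟨v, hv, h⟩
    · obtain ⟨J, hJ, k', hk', hs⟩ := ih J₀ k hdisj' hrS' hrJ h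
      exact ⟨J, hJ.trans (Finset.union_subset_union_left (Finset.subset_insert _ _)), k', hk', hs⟩
    · by_cases hvr : v = r
      · subst hvr
        have hk : 1 ≤ k := by simpa [ind, hrJ] using hv
        have e2 : (Pi.single v k + ind J₀ - Pi.single v 1 + Pi.single u 1 : V → ℕ)
            = Pi.single v (k - 1) + ind (insert u J₀) := by
          funext w
          simp only [Pi.add_apply, Pi.sub_apply, ind, Finset.mem_insert]
          by_cases hw : w = v
          · subst hw
            simp [hrJ, Ne.symm hur]
          · by_cases hwu : w = u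
            · subst hwu
              simp [huJ, Pi.single_eq_of_ne hw]
            · simp [hwu, Pi.single_eq_of_ne hw, Pi.single_eq_of_ne hwu]
        rw [e2] at h
        obtain ⟨J, hJ, k', hk', hs⟩ := ih (insert u J₀) (k - 1) (by
          rw [Finset.disjoint_insert_right]; exact ⟨hu, hdisj'⟩) hrS' (by
          rw [Finset.mem_insert]; push Not; exact ⟨Ne.symm hur, hrJ⟩) h
        refine ⟨J, hJ.trans ?_, k', ?_, hs⟩
        · intro w hw
          simp only [Finset.mem_union, Finset.mem_insert] at hw ⊢
          tauto
        · rw [Finset.card_insert_of_notMem huJ] at hk'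
          omega
      · have hvJ : v ∈ J₀ := by
          by_contra hvJ
          simp [ind, hvJ, Pi.single_eq_of_ne hvr] at hv
        have hvu : v ≠ u := fun h' => huJ (h' ▸ hvJ)
        have e2 : (Pi.single r k + ind J₀ - Pi.single v 1 + Pi.single u 1 : V → ℕ)
            = Pi.single r k + ind (insert u (J₀.erase v)) := by
          funext w
          simp only [Pi.add_apply, Pi.sub_apply, ind, Finset.mem_insert, Finset.mem_erase]
          by_cases hw : w = v
          · subst hw
            simp [hvJ, hvu, Pi.single_eq_of_ne hvr]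
          · by_cases hwu : w = u
            · subst hwu
              simp [huJ, Pi.single_eq_of_ne hw]
            · simp [hwu, hw, Pi.single_eq_of_ne hw, Pi.single_eq_of_ne hwu]
        rw [e2] at h
        obtain ⟨J, hJ, k', hk', hs⟩ := ih (insert u (J₀.erase v)) k (by
          rw [Finset.disjoint_insert_right]
          exact ⟨hu, Finset.disjoint_of_subset_right (Finset.erase_subset _ _) hdisj'⟩) hrS' (by
          rw [Finset.mem_insert, Finset.mem_erase]; push Not
          exact ⟨Ne.symm hur, fun _ => hrJ⟩) h
        refine ⟨J, hJ.trans ?_, k', ?_, hs⟩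
        · intro w hw
          simp only [Finset.mem_union, Finset.mem_insert, Finset.mem_erase] at hw ⊢
          tauto
        · rw [Finset.card_insert_of_notMem (by simp [huJ]), Finset.card_erase_of_mem hvJ] at hk'
          have := Finset.card_pos.2 ⟨v, hvJ⟩
          omega

omit [Fintype V] in
lemma truncate (r : V) (C : V → ℕ) (S : Finset V) (k : ℕ) (hrS : r ∉ S)
    (h : Solvable G (C + ind S) (Pi.single r k)) :
    ∃ J ⊆ S, ∃ k', k' + J.card = k ∧ Solvable G C (Pi.single r k' + ind J) := by
  have := truncate_aux (G := G) r C S ∅ k (by simp) hrS (by simp) (by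
    have e : (Pi.single r k + ind (∅ : Finset V) : V → ℕ) = Pi.single r k := by
      funext w; simp [ind]
    rwa [e])
  simpa using this

/-- The weight of a configuration with respect to `r`. -/
noncomputable def wt (G : SimpleGraph V) (d : ℕ) (r : V) (C : V → ℕ) : ℕ :=
  ∑ v, C v * 2 ^ (d - G.dist v r)

omit [DecidableEq V] in
lemma wt_add (d : ℕ) (r : V) (C E : V → ℕ) : wt G d r (C + E) = wt G d r C + wt G d r E := by
  simp only [wt, Pi.add_apply, add_mul]
  rw [Finset.sum_add_distrib]

lemma wt_single (d : ℕ) (r v : V) (a : ℕ) :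
    wt G d r (Pi.single v a) = a * 2 ^ (d - G.dist v r) := by
  rw [wt, Finset.sum_eq_single v]
  · simp
  · intro b _ hb
    simp [Pi.single_eq_of_ne hb]
  · simp

lemma wt_step (hG : G.Connected) (d : ℕ) (r : V) {C C' : V → ℕ} (h : Step G C C') :
    wt G d r C' ≤ wt G d r C := by
  rw [step_iff] at h
  obtain ⟨A, u, v, hadj, rfl, rfl⟩ := h
  rw [wt_add, wt_add, wt_single, wt_single]
  apply Nat.add_le_add_left
  rw [one_mul, ← pow_succ']
  apply Nat.pow_le_pow_right (by norm_num)
  have h1 : G.dist u r ≤ G.dist u v + G.dist v r := hG.dist_triangle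
  have h2 : G.dist u v = 1 := SimpleGraph.dist_eq_one_iff_adj.2 hadj
  omega

lemma wt_reach (hG : G.Connected) (d : ℕ) (r : V) {C C' : V → ℕ}
    (h : ReflTransGen (Step G) C C') : wt G d r C' ≤ wt G d r C := by
  induction h with
  | refl => exact le_rfl
  | tail _ hs ih => exact (wt_step hG d r hs).trans ih

lemma pebblingNumber_spec (hG : G.Connected) {d : ℕ} (hd : ∀ v w, G.dist v w ≤ d) (D : V → ℕ)
    (C : V → ℕ) (hC : pebblingNumber G D ≤ ∑ v, C v) : Solvable G C D := by
  have hne : {m | ∀ C : V → ℕ, m ≤ ∑ v, C v → Solvable G C D}.Nonempty :=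
    ⟨_, fun C hC => deliver_arb hG hd _ C D rfl hC⟩
  exact Nat.sInf_mem hne C hC

lemma foldNumber_ge (hG : G.Connected) {d : ℕ} (hd : ∀ v w, G.dist v w ≤ d) {a r : V}
    (har : G.dist a r = d) (t : ℕ) : 2 ^ d * t ≤ foldNumber G t := by
  refine le_trans ?_ (Finset.le_sup (f := fun r => pebblingNumber G (Pi.single r t))
    (Finset.mem_univ r))
  by_contra hlt
  push Not at hlt
  have h1 := pebblingNumber_spec hG hd (Pi.single r t) (Pi.single a (2 ^ d * t - 1)) (by
    rw [Finset.sum_pi_single']
    simp only [Finset.mem_univ, if_true]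
    omega)
  obtain ⟨C', h2, h3⟩ := h1
  have h4 := wt_reach hG d r h2
  rw [wt_single, har, Nat.sub_self, pow_zero, mul_one] at h4
  have h5 : t * 2 ^ d ≤ wt G d r C' := by
    have h6 : C' r * 2 ^ (d - G.dist r r) ≤ wt G d r C' :=
      Finset.single_le_sum (f := fun v => C' v * 2 ^ (d - G.dist v r))
        (fun _ _ => Nat.zero_le _) (Finset.mem_univ r)
    rw [SimpleGraph.dist_self, Nat.sub_zero] at h6
    have h7 := h3 r
    rw [Pi.single_eq_same] at h7
    exact (Nat.mul_le_mul_right _ h7).trans h6
  rw [mul_comm] at h5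
  omega

lemma foldNumber_spec (hG : G.Connected) {d : ℕ} (hd : ∀ v w, G.dist v w ≤ d) (t : ℕ) (r : V)
    (C : V → ℕ) (hC : foldNumber G t ≤ ∑ v, C v) : Solvable G C (Pi.single r t) :=
  pebblingNumber_spec hG hd _ C ((Finset.le_sup
    (f := fun r => pebblingNumber G (Pi.single r t)) (Finset.mem_univ r)).trans hC)

end Pool.Agent.Lib.MP_ef3cf3_co
end
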