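import Mathlib
import Pool.Agent.Lib.MP_ef3cf3_co.Deliver

section

/-!
A zero-sum lemma for sequences of integer vectors modulo a power of two (a form of Olson's theorem).
-/

namespace Pool.Agent.Lib.MP_ef3cf3_co

open Finset

section ZS

variable {V : Type} [Fintype V] [DecidableEq V] (d : ℕ)

/-- The group algebra over `𝔽₂` of `(ℤ/2^d)^V`. -/
abbrev GA (V : Type) (d : ℕ) : Type := AddMonoidAlgebra (ZMod 2) (V → ZMod (2 ^ d))

/-- The basis element of a group element. -/
noncomputable def gX {V : Type} {d : ℕ} (g : V → ZMod (2 ^ d)) : GA V d :=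
  AddMonoidAlgebra.single g 1

lemma gX_zero {V : Type} {d : ℕ} : (gX 0 : GA V d) = 1 := rfl

lemma gX_add {V : Type} {d : ℕ} (g h : V → ZMod (2 ^ d)) : gX (g + h) = gX g * gX h := by
  rw [gX, gX, gX, AddMonoidAlgebra.single_mul_single, one_mul]

lemma gX_sum {V : Type} {d : ℕ} {ι : Type*} (s : Finset ι) (g : ι → V → ZMod (2 ^ d)) :
    gX (∑ i ∈ s, g i) = ∏ i ∈ s, gX (g i) := by
  classical
  induction s using Finset.induction_on with
  | empty => rfl
  | insert a s ha ih => rw [Finset.sum_insert ha, Finset.prod_insert ha, gX_add, ih]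

lemma gX_nsmul {V : Type} {d : ℕ} (n : ℕ) (g : V → ZMod (2 ^ d)) : gX (n • g) = gX g ^ n := by
  induction n with
  | zero => simp [gX_zero]
  | succ n ih => rw [succ_nsmul, gX_add, ih, pow_succ]

omit [Fintype V] [DecidableEq V] in
lemma charP_GA : CharP (GA V d) 2 :=
  charP_of_injective_algebraMap (algebraMap (ZMod 2) (GA V d)).injective 2

omit [Fintype V] [DecidableEq V] in
lemma two_eq_zero' : (1 : GA V d) + 1 = 0 := by
  have := charP_GA (V := V) d
  have : ((2 : ℕ) : GA V d) = 0 := CharP.cast_eq_zero _ 2
  rw [one_add_one_eq_two]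
  exact_mod_cast this

omit [Fintype V] in
lemma pow_one_add (v : V) : ((1 : GA V d) + gX (Pi.single v 1)) ^ (2 ^ d) = 0 := by
  have := charP_GA (V := V) d
  rw [add_pow_char_pow, one_pow, ← gX_nsmul]
  have : (2 ^ d : ℕ) • (Pi.single v 1 : V → ZMod (2 ^ d)) = 0 := by
    funext w
    by_cases hw : w = v
    · subst hw; simp
    · simp [Pi.single_eq_of_ne hw]
  rw [this, gX_zero, two_eq_zero']

/-- The augmentation-type ideal. -/
noncomputable def augI (s : Finset V) : Ideal (GA V d) :=
  s.sup fun v => Ideal.span {(1 : GA V d) + gX (Pi.single v 1)}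

omit [Fintype V] in
lemma augI_pow (s : Finset V) : (augI d s) ^ (s.card * 2 ^ d) = (⊥ : Ideal (GA V d)) ∨ s = ∅ := by
  induction s using Finset.induction_on with
  | empty => right; rfl
  | insert a s ha ih =>
    left
    have h1 : (Ideal.span {(1 : GA V d) + gX (Pi.single a 1)}) ^ (2 ^ d) = ⊥ := by
      rw [Ideal.span_singleton_pow, pow_one_add]
      simp
    have h2 : (s.card + 1) * 2 ^ d = 2 ^ d + s.card * 2 ^ d := by ring
    rw [augI, Finset.sup_insert, Finset.card_insert_of_notMem ha, h2]
    rcases ih with ih | ih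
    · rw [eq_bot_iff]
      refine (Ideal.sup_pow_add_le_pow_sup_pow).trans ?_
      rw [h1]
      rw [augI] at ih
      rw [ih]
      simp
    · subst ih
      simp only [Finset.sup_empty, sup_bot_eq, Finset.card_empty, zero_mul, add_zero]
      exact h1

lemma one_add_gX_mem (g : V → ZMod (2 ^ d)) : (1 : GA V d) + gX g ∈ augI d (univ : Finset V) := by
  set I := augI d (univ : Finset V) with hI
  rw [← Ideal.Quotient.eq_zero_iff_mem]
  have h1 : ∀ v : V, Ideal.Quotient.mk I (gX (Pi.single v 1)) = 1 := by
    intro v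
    have hmem : (1 : GA V d) + gX (Pi.single v 1) ∈ I := by
      have : Ideal.span {(1 : GA V d) + gX (Pi.single v 1)} ≤ I := by
        rw [hI, augI]
        exact Finset.le_sup (f := fun v => Ideal.span {(1 : GA V d) + gX (Pi.single v 1)})
          (Finset.mem_univ v)
      exact this (Ideal.mem_span_singleton_self _)
    rw [← Ideal.Quotient.eq_zero_iff_mem, map_add, map_one] at hmem
    have h2 : (1 : GA V d ⧸ I) + 1 = 0 := by
      rw [← map_one (Ideal.Quotient.mk I), ← map_add, two_eq_zero', map_zero]
    exact add_left_cancel (hmem.trans h2.symm)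
  have h3 : g = ∑ v, (g v).val • (Pi.single v 1 : V → ZMod (2 ^ d)) := by
    funext w
    rw [Finset.sum_apply, Finset.sum_eq_single w]
    · simp
    · intro b _ hb
      simp [Pi.single_eq_of_ne (Ne.symm hb)]
    · simp
  rw [h3, gX_sum, map_add, map_prod, map_one]
  simp only [gX_nsmul, map_pow, h1, one_pow, Finset.prod_const_one]
  rw [← map_one (Ideal.Quotient.mk I), ← map_add, two_eq_zero', map_zero]

omit [DecidableEq V] in
lemma coeff_gX_zero (g : V → ZMod (2 ^ d)) :
    (gX g : GA V d).coeff 0 = if g = 0 then 1 else 0 := by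
  rw [gX, AddMonoidAlgebra.coeff_single, Finsupp.single_apply]

/-- **Zero-sum lemma.** -/
theorem zero_sum [Nonempty V] {ι : Type*} [DecidableEq ι] (s : Finset ι) (c : ι → V → ℕ)
    (h : Fintype.card V * 2 ^ d ≤ s.card) :
    ∃ B ⊆ s, B.Nonempty ∧ ∀ v, 2 ^ d ∣ ∑ i ∈ B, c i v := by
  by_contra hcon
  push Not at hcon
  set g : ι → V → ZMod (2 ^ d) := fun i v => (c i v : ZMod (2 ^ d)) with hg
  have hprod : ∏ i ∈ s, ((1 : GA V d) + gX (g i)) = 0 := by
    have h1 : ∏ i ∈ s, ((1 : GA V d) + gX (g i)) ∈ (augI d (univ : Finset V)) ^ s.card := by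
      have := Ideal.prod_mem_prod (s := s) (I := fun _ => augI d (univ : Finset V))
        (x := fun i => (1 : GA V d) + gX (g i)) (fun i _ => one_add_gX_mem d (g i))
      rwa [Finset.prod_const] at this
    have h2 : (augI d (univ : Finset V)) ^ s.card ≤ ⊥ := by
      have h3 := augI_pow d (univ : Finset V)
      rcases h3 with h3 | h3
      · rw [Finset.card_univ] at h3
        rw [← h3]
        exact Ideal.pow_le_pow_right h
      · exact absurd h3 (Finset.univ_nonempty.ne_empty)
    simpa using h2 h1
  rw [Finset.prod_one_add] at hprod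
  have hco := congrArg (fun x : GA V d => x.coeff 0) hprod
  simp only [← gX_sum, AddMonoidAlgebra.coeff_sum, Finsupp.coe_finsetSum, Finset.sum_apply,
    coeff_gX_zero, AddMonoidAlgebra.coeff_zero, Finsupp.coe_zero, Pi.zero_apply] at hco
  rw [Finset.sum_eq_single ∅] at hco
  · simp at hco
  · intro B hB hne
    rw [if_neg]
    intro h0
    obtain ⟨v, hv⟩ := hcon B (Finset.mem_powerset.1 hB) (Finset.nonempty_iff_ne_empty.2 hne)
    apply hv
    have := congrFun h0 v
    rw [Finset.sum_apply] at this
    simp only [hg, Pi.zero_apply] at this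
    rw [← Nat.cast_sum] at this
    exact (ZMod.natCast_eq_zero_iff _ _).1 this
  · intro h'
    exact absurd (Finset.empty_mem_powerset s) h'

/-- Extraction of a large subfamily with sum divisible by `2^d` in each coordinate. -/
theorem zero_sum_large [Nonempty V] {ι : Type*} [DecidableEq ι] (s : Finset ι) (c : ι → V → ℕ) :
    ∃ B ⊆ s, s.card < B.card + Fintype.card V * 2 ^ d ∧ ∀ v, 2 ^ d ∣ ∑ i ∈ B, c i v := by
  induction s using Finset.strongInduction with
  | H s ih =>
    by_cases hs : Fintype.card V * 2 ^ d ≤ s.card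
    · obtain ⟨B₁, hB₁, hne, hdiv⟩ := zero_sum d s c hs
      have hss : s \ B₁ ⊂ s := Finset.sdiff_ssubset hB₁ hne
      obtain ⟨B₂, hB₂, hcard, hdiv₂⟩ := ih _ hss
      have hdisj : Disjoint B₁ B₂ := by
        rw [Finset.disjoint_left]
        intro x hx hx'
        exact (Finset.mem_sdiff.1 (hB₂ hx')).2 hx
      refine ⟨B₁ ∪ B₂, Finset.union_subset hB₁ (hB₂.trans Finset.sdiff_subset), ?_, ?_⟩
      · rw [Finset.card_union_of_disjoint hdisj]
        have := Finset.card_sdiff_add_card_eq_card hB₁
        omega
      · intro v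
        rw [Finset.sum_union hdisj]
        exact dvd_add (hdiv v) (hdiv₂ v)
    · exact ⟨∅, Finset.empty_subset _, by rw [Finset.card_empty]; omega, by simp⟩

end ZS

end Pool.Agent.Lib.MP_ef3cf3_co
end

section

/-!
Graph pebbling: the strong target conjecture for targets with one large entry.
-/

namespace Pool.Agent.Lib.MP_ef3cf3_co

open Finset Relation

variable {V : Type} [Fintype V] [DecidableEq V] {G : SimpleGraph V}

omit [Fintype V] in
lemma sum_single_card {ι : Type*} (P : Finset ι) (r : V) :
    ∑ _i ∈ P, (Pi.single r 1 : V → ℕ) = Pi.single r P.card := by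
  funext w
  rw [Finset.sum_apply, Finset.sum_const, smul_eq_mul]
  by_cases hw : w = r
  · subst hw; simp
  · simp [Pi.single_eq_of_ne hw]

lemma sum_ind (J : Finset V) : ∑ v, ind J v = J.card := by
  simp [ind]

theorem main_solvable (hG : G.Connected) {d : ℕ} (hd : ∀ v w, G.dist v w ≤ d) {a₀ r₀ : V}
    (har : G.dist a₀ r₀ = d) (D : V → ℕ) (r : V)
    (hr : (2 * Fintype.card V - 1) * 2 ^ d ≤ D r) (C : V → ℕ)
    (hC : foldNumber G (∑ v, D v) + 1 ≤ ∑ v, C v + supportSize D) : Solvable G C D := by
  have : Nonempty V := ⟨r⟩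
  set n := Fintype.card V with hn
  have hn1 : 1 ≤ n := Fintype.card_pos
  obtain ⟨m, hm⟩ : ∃ m, n = m + 1 := ⟨n - 1, by omega⟩
  have hq : 1 ≤ 2 ^ d := Nat.one_le_two_pow
  obtain ⟨p, hp⟩ : ∃ p, 2 ^ d = p + 1 := ⟨2 ^ d - 1, by omega⟩
  set t := ∑ v, D v with ht
  have hfold := foldNumber_ge hG hd har t
  set R := univ.filter (fun v => 0 < D v) with hR
  have hDr : 0 < D r := by
    have : 0 < (2 * n - 1) * 2 ^ d := Nat.mul_pos (by omega) (by omega)
    omega
  have hrR : r ∈ R := by simp [hR, hDr]
  have hs : supportSize D = R.card := rfl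
  have hsn : R.card ≤ n := Finset.card_le_univ _
  have hRerase : (R.erase r).card + 1 = R.card := Finset.card_erase_add_one hrR
  -- truncation
  have h1 : Solvable G (C + ind (R.erase r)) (Pi.single r t) := by
    apply foldNumber_spec hG hd
    simp only [Pi.add_apply]
    rw [Finset.sum_add_distrib, sum_ind]
    omega
  obtain ⟨J, hJ, k, hk, h2⟩ := truncate r C (R.erase r) t (by simp) h1
  -- decomposition
  obtain ⟨c, hc, hcs⟩ := Solvable.decomp (ι := Option (Fin k))
    (fun o => o.elim (ind J) fun _ => Pi.single r 1) (by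
      rw [Fintype.sum_option]
      simp only [Option.elim]
      rw [sum_single_card, Finset.card_univ, Fintype.card_fin, add_comm]
      exact h2)
  rw [Fintype.sum_option] at hc
  set f : Fin k → V → ℕ := fun i => c (some i) with hf
  set e := c none with he
  have hfs : ∀ i, Solvable G (f i) (Pi.single r 1) := fun i => hcs (some i)
  have hes : Solvable G e (ind J) := hcs none
  have hfsP : ∀ P : Finset (Fin k), Solvable G (∑ i ∈ P, f i) (Pi.single r P.card) := by
    intro P
    rw [← sum_single_card P r]
    exact Solvable.sum P f (fun _ => Pi.single r 1) fun i _ => hfs i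
  have hsumP : ∀ P : Finset (Fin k), ∑ v, (∑ i ∈ P, f i) v = ∑ i ∈ P, ∑ v, f i v := by
    intro P
    simp only [Finset.sum_apply]
    rw [Finset.sum_comm]
  set Ch := univ.filter (fun i : Fin k => ∑ v, f i v < 2 ^ d) with hCh
  set X := univ.filter (fun i : Fin k => ¬ ∑ v, f i v < 2 ^ d) with hX
  have hChX : Ch.card + X.card = k := by
    rw [hCh, hX, Finset.card_filter_add_card_filter_not, Finset.card_univ, Fintype.card_fin]
  have hDrt : D r ≤ t := Finset.single_le_sum (f := D) (fun _ _ => Nat.zero_le _)
    (Finset.mem_univ r)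
  have e3 : (2 * n - 1) * 2 ^ d = m * 2 ^ d + n * 2 ^ d := by
    have : 2 * n - 1 = m + n := by omega
    rw [this]; ring
  by_cases hcase : m * 2 ^ d ≤ Ch.card
  · -- many cheap atoms
    obtain ⟨P, hP, hPc⟩ := Finset.exists_subset_card_eq hcase
    set N := m * 2 ^ d with hN
    have hNr : N ≤ D r := by omega
    have hle : ∑ i ∈ P, f i ≤ C := by
      refine le_trans ?_ hc
      refine le_trans ?_ (fun v => Nat.le_add_left _ _)
      exact Finset.sum_le_sum_of_subset (Finset.subset_univ P)
    have hW : ∑ v, (∑ i ∈ P, f i) v ≤ N * p := by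
      rw [hsumP, ← hPc, ← smul_eq_mul]
      apply Finset.sum_le_card_nsmul
      intro i hi
      have := (Finset.mem_filter.1 (hP hi)).2
      omega
    have hCr : ∑ v, (C - ∑ i ∈ P, f i) v + ∑ v, (∑ i ∈ P, f i) v = ∑ v, C v := by
      rw [← Finset.sum_add_distrib]
      apply Finset.sum_congr rfl
      intro v _
      have h6 : (∑ i ∈ P, f i) v ≤ C v := hle v
      simp only [Pi.sub_apply]
      omega
    have hD' := sum_sub_single hNr
    have h3 : Solvable G (C - ∑ i ∈ P, f i) (D - Pi.single r N) := by
      apply deliver_arb hG hd _ _ _ rfl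
      rw [← hn, hm, hp, Nat.add_sub_cancel, Nat.add_sub_cancel]
      set t' := ∑ v, (D - Pi.single r N : V → ℕ) v with ht'
      have hNN : N = m * p + m := by rw [hN, hp]; ring
      have e1 : (p + 1) * (t' + N) = N * p + N + (p + 1) * t' := by ring
      have e2 : 2 ^ d * t = (p + 1) * (t' + N) := by rw [hp, ht, hD']
      omega
    have h4 := h3.add (hfsP P)
    rw [hPc, ← split_single hNr, tsub_add_cancel_of_le hle] at h4
    exact h4
  · -- many expensive atoms
    push Not at hcase
    obtain ⟨B, hB, hBc, hdiv⟩ := zero_sum_large d X f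
    rw [← hn] at hBc
    have hBk : B.card ≤ k := by
      have := Finset.card_le_univ B
      rwa [Fintype.card_fin] at this
    -- sizes
    have hindJ : ∀ v, v ≠ r → ind J v ≤ D v := by
      intro v _
      by_cases hv : v ∈ J
      · have := hJ hv
        rw [Finset.mem_erase, hR, Finset.mem_filter] at this
        simp only [ind, hv, if_true]
        exact this.2.2
      · simp [ind, hv]
    have hrJ : r ∉ J := fun h => by
      have := hJ h
      simp at this
    have hindr : ind J r = 0 := by simp [ind, hrJ]
    have hJt : J.card + D r ≤ t := by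
      have h5 : ∑ v, (ind J v + if v = r then D r else 0) ≤ ∑ v, D v := by
        apply Finset.sum_le_sum
        intro v _
        by_cases hv : v = r
        · subst hv; simp [hindr]
        · simpa [hv] using hindJ v hv
      rw [Finset.sum_add_distrib, sum_ind] at h5
      simpa using h5
    obtain ⟨M, hM⟩ : ∃ M, k = D r + M := ⟨k - D r, by omega⟩
    have hMB : M ≤ B.card := by omega
    set Dc : V → ℕ := fun v => if v = r then B.card - M else D v - ind J v with hDc
    have hDcsum : ∑ v, Dc v = B.card := by
      have h5 : ∑ v, (Dc v + ind J v + if v = r then D r else 0)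
          = ∑ v, (D v + if v = r then B.card - M else 0) := by
        apply Finset.sum_congr rfl
        intro v _
        by_cases hv : v = r
        · subst hv; simp [hDc, hindr]; omega
        · have := hindJ v hv
          simp [hDc, hv]
          omega
      rw [Finset.sum_add_distrib, Finset.sum_add_distrib, Finset.sum_add_distrib, sum_ind] at h5
      simp at h5
      omega
    have h3 : Solvable G (∑ i ∈ B, f i) Dc := by
      apply deliver_exact hG hd B.card _ _ hDcsum
      · intro v
        rw [Finset.sum_apply]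
        exact hdiv v
      · rw [hsumP, mul_comm, ← smul_eq_mul]
        apply Finset.card_nsmul_le_sum
        intro i hi
        have := (Finset.mem_filter.1 (hB hi)).2
        omega
    have h4 := (h3.add (hfsP Bᶜ)).add hes
    refine h4.mono ?_ ?_
    · refine le_trans (le_of_eq ?_) hc
      rw [Finset.sum_add_sum_compl, add_comm]
    · intro v
      rw [Finset.card_compl, Fintype.card_fin]
      simp only [Pi.add_apply]
      by_cases hv : v = r
      · subst hv
        simp only [hDc, if_true, Pi.single_eq_same]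
        omega
      · have := hindJ v hv
        simp only [hDc, hv, if_false, Pi.single_eq_of_ne hv]
        omega

/-- The pebbling number bound. -/
theorem main_bound (hG : G.Connected) {d : ℕ} (hd : ∀ v w, G.dist v w ≤ d) {a₀ r₀ : V}
    (har : G.dist a₀ r₀ = d) (D : V → ℕ) (r : V)
    (hr : (2 * Fintype.card V - 1) * 2 ^ d ≤ D r) :
    pebblingNumber G D + supportSize D ≤ foldNumber G (∑ v, D v) + 1 := by
  have hfold := foldNumber_ge hG hd har (∑ v, D v)
  have hs : supportSize D ≤ foldNumber G (∑ v, D v) := by
    refine le_trans ?_ hfold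
    have h1 : supportSize D ≤ ∑ v, D v := by
      rw [supportSize, Finset.card_eq_sum_ones, Finset.sum_filter]
      apply Finset.sum_le_sum
      intro v _
      split_ifs with h
      · exact h
      · exact Nat.zero_le _
    exact h1.trans (Nat.le_mul_of_pos_left _ (by positivity))
  have : pebblingNumber G D ≤ foldNumber G (∑ v, D v) + 1 - supportSize D := by
    apply Nat.sInf_le
    intro C hC
    exact main_solvable hG hd har D r hr C (by omega)
  omega

end Pool.Agent.Lib.MP_ef3cf3_co
end
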