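import Pool.Agent.Lib.MP_ef3cf3_co.Deliver

section

/-!
Graph pebbling: collecting pebbles along a path.
-/

namespace Pool.Agent.Lib.MP_ef3cf3_co

open Finset Relation

variable {V : Type} [Fintype V] [DecidableEq V] {G : SimpleGraph V}

omit [Fintype V] in
lemma solvable_refl (C : V → ℕ) : Solvable G C C := solvable_of_le le_rfl

omit [Fintype V] in
/-- Collecting along a path `p n, …, p 0`: the pebbles on `p i` count `2^(n-i)`. -/
lemma solvable_line (p : ℕ → V) : ∀ (n : ℕ), (∀ i < n, G.Adj (p (i + 1)) (p i)) →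
    ∀ (c : ℕ → ℕ) (k : ℕ), k * 2 ^ n ≤ ∑ i ∈ range (n + 1), c i * 2 ^ (n - i) →
    Solvable G (∑ i ∈ range (n + 1), Pi.single (p i) (c i)) (Pi.single (p 0) k) := by
  intro n
  induction n with
  | zero =>
    intro _ c k h
    simp at h
    refine solvable_of_le ?_
    simp [h]
  | succ n ih =>
    intro hp c k h
    have hq : k * 2 ^ n ≤ ∑ i ∈ range (n + 1), c i * 2 ^ (n - i) + c (n + 1) / 2 := by
      rw [Finset.sum_range_succ] at h
      have e : ∑ i ∈ range (n + 1), c i * 2 ^ (n + 1 - i)
          = 2 * ∑ i ∈ range (n + 1), c i * 2 ^ (n - i) := by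
        rw [Finset.mul_sum]
        refine Finset.sum_congr rfl fun i hi => ?_
        have hi' : i ≤ n := by simpa [Nat.lt_succ_iff] using hi
        rw [Nat.sub_add_comm hi', pow_succ]
        ring
      rw [e] at h
      have e2 : k * 2 ^ (n + 1) = 2 * (k * 2 ^ n) := by ring
      rw [e2] at h
      simp at h
      omega
    set c' : ℕ → ℕ := fun i => if i = n then c n + c (n + 1) / 2 else c i with hc'
    have h1 := ih (fun i hi => hp i (by omega)) c' k (by
      refine hq.trans (le_of_eq ?_)
      rw [Finset.sum_range_succ, Finset.sum_range_succ]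
      have e : ∑ i ∈ range n, c' i * 2 ^ (n - i) = ∑ i ∈ range n, c i * 2 ^ (n - i) := by
        refine Finset.sum_congr rfl fun i hi => ?_
        have : i ≠ n := by
          have := Finset.mem_range.1 hi
          omega
        simp [hc', this]
      rw [e]
      simp [hc']
      ring)
    refine Solvable.trans ?_ h1
    have e1 : (∑ i ∈ range (n + 1), Pi.single (p i) (c' i) : V → ℕ)
        = ∑ i ∈ range (n + 1), Pi.single (p i) (c i) + Pi.single (p n) (c (n + 1) / 2) := by
      rw [Finset.sum_range_succ, Finset.sum_range_succ]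
      have e : (∑ i ∈ range n, Pi.single (p i) (c' i) : V → ℕ)
          = ∑ i ∈ range n, Pi.single (p i) (c i) := by
        refine Finset.sum_congr rfl fun i hi => ?_
        have : i ≠ n := by
          have := Finset.mem_range.1 hi
          omega
        simp [hc', this]
      rw [e]
      simp only [hc', if_true]
      rw [Pi.single_add, add_assoc]
    rw [e1, Finset.sum_range_succ (n := n + 1)]
    refine (solvable_refl _).add ?_
    refine Solvable.mono (solvable_edge (hp n (by omega)) (c (n + 1) / 2)) ?_ le_rfl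
    rw [Pi.single_le_single]
    exact Nat.div_mul_le_self _ _

omit [Fintype V] in
/-- The same with the scale `2^D`, `D ≥ n`. -/
lemma solvable_line' (p : ℕ → V) (n D : ℕ) (hnD : n ≤ D) (hp : ∀ i < n, G.Adj (p (i + 1)) (p i))
    (c : ℕ → ℕ) (k : ℕ) (h : k * 2 ^ D ≤ ∑ i ∈ range (n + 1), c i * 2 ^ (D - i)) :
    Solvable G (∑ i ∈ range (n + 1), Pi.single (p i) (c i)) (Pi.single (p 0) k) := by
  refine solvable_line p n hp c k ?_
  obtain ⟨e, rfl⟩ : ∃ e, D = n + e := ⟨D - n, by omega⟩
  have e1 : ∑ i ∈ range (n + 1), c i * 2 ^ (n + e - i)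
      = (∑ i ∈ range (n + 1), c i * 2 ^ (n - i)) * 2 ^ e := by
    rw [Finset.sum_mul]
    refine Finset.sum_congr rfl fun i hi => ?_
    have hi' : i ≤ n := by simpa [Nat.lt_succ_iff] using hi
    rw [Nat.sub_add_comm hi', pow_add, mul_assoc]
  rw [e1, pow_add, ← mul_assoc] at h
  exact Nat.le_of_mul_le_mul_right h (by positivity)

/-- A configuration as a sum of single vertices. -/
lemma eq_sum_single (C : V → ℕ) : C = ∑ v, Pi.single v (C v) := by
  funext w
  rw [Finset.sum_apply, Finset.sum_eq_single w]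
  · simp
  · intro b _ hb
    rw [Pi.single_eq_of_ne (Ne.symm hb)]
  · simp

/-- Collecting pebbles: the vertex `v` first moves its pebbles to the vertex `p (a v)` of the path,
at distance `b v ≤ 2`; a pebble on `v` counts `w v`. -/
lemma collect (p : ℕ → V) (n D : ℕ) (hnD : n ≤ D) (hp : ∀ i < n, G.Adj (p (i + 1)) (p i))
    (C w : V → ℕ) (k : ℕ)
    (hw : ∀ v, w v = 0 ∨ ∃ a b, a ≤ n ∧ b ≤ 2 ∧ w v * 2 ^ (a + b) ≤ 2 ^ D ∧
      ∀ m, Solvable G (Pi.single v (m * 2 ^ b)) (Pi.single (p a) m))
    (hsum : k * 2 ^ D + 3 * ∑ v, w v ≤ ∑ v, C v * w v) :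
    Solvable G C (Pi.single (p 0) k) := by
  -- the amounts delivered to the path
  have hch : ∀ v, ∃ a q, a ≤ n ∧ C v * w v ≤ q * 2 ^ (D - a) + 3 * w v ∧
      Solvable G (Pi.single v (C v)) (Pi.single (p a) q) := by
    intro v
    rcases hw v with h0 | ⟨a, b, ha, hb, hwD, hs⟩
    · exact ⟨0, 0, Nat.zero_le _, by simp [h0], solvable_of_le (by simp)⟩
    · refine ⟨a, C v / 2 ^ b, ha, ?_, ?_⟩
      · have h1 : C v ≤ (C v / 2 ^ b) * 2 ^ b + 3 := by
          have hb4 : 2 ^ b ≤ 4 := by
            calc 2 ^ b ≤ 2 ^ 2 := Nat.pow_le_pow_right (by norm_num) hb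
              _ = 4 := by norm_num
          have h2 := Nat.div_add_mod (C v) (2 ^ b)
          have h3 := Nat.mod_lt (C v) (show 0 < 2 ^ b by positivity)
          rw [mul_comm] at h2
          omega
        have h2 : C v * w v ≤ (C v / 2 ^ b) * (w v * 2 ^ b) + 3 * w v := by
          calc C v * w v ≤ ((C v / 2 ^ b) * 2 ^ b + 3) * w v := Nat.mul_le_mul_right _ h1
            _ = _ := by ring
        have h3 : w v * 2 ^ b ≤ 2 ^ (D - a) := by
          have h4 : w v * 2 ^ b * 2 ^ a ≤ 2 ^ (D - a) * 2 ^ a := by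
            rw [← pow_add, Nat.sub_add_cancel (ha.trans hnD), mul_assoc, ← pow_add, add_comm b a]
            exact hwD
          exact Nat.le_of_mul_le_mul_right h4 (by positivity)
        exact h2.trans (Nat.add_le_add_right (Nat.mul_le_mul_left _ h3) _)
      · refine Solvable.mono (hs (C v / 2 ^ b)) ?_ le_rfl
        rw [Pi.single_le_single]
        exact Nat.div_mul_le_self _ _
  choose a q han hq hs using hch
  have h1 : Solvable G C (∑ v, Pi.single (p (a v)) (q v)) := by
    conv => arg 2; rw [eq_sum_single C]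
    exact Solvable.sum _ _ _ fun v _ => hs v
  refine h1.trans ?_
  set c : ℕ → ℕ := fun i => ∑ v ∈ univ.filter (fun v => a v = i), q v with hc
  have e1 : (∑ v, Pi.single (p (a v)) (q v) : V → ℕ)
      = ∑ i ∈ range (n + 1), Pi.single (p i) (c i) := by
    rw [← Finset.sum_fiberwise_of_maps_to (s := univ) (t := range (n + 1)) (g := a)
      (fun v _ => Finset.mem_range.2 (Nat.lt_succ_of_le (han v)))]
    refine Finset.sum_congr rfl fun i _ => ?_
    rw [hc]
    simp only
    funext x
    rw [Finset.sum_apply]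
    by_cases hx : x = p i
    · subst hx
      rw [Pi.single_eq_same]
      refine Finset.sum_congr rfl fun v hv => ?_
      rw [(Finset.mem_filter.1 hv).2, Pi.single_eq_same]
    · rw [Pi.single_eq_of_ne hx]
      refine Finset.sum_eq_zero fun v hv => ?_
      rw [(Finset.mem_filter.1 hv).2, Pi.single_eq_of_ne hx]
  rw [e1]
  refine solvable_line' p n D hnD hp c k ?_
  have e2 : ∑ i ∈ range (n + 1), c i * 2 ^ (D - i) = ∑ v, q v * 2 ^ (D - a v) := by
    rw [← Finset.sum_fiberwise_of_maps_to (s := univ) (t := range (n + 1)) (g := a)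
      (fun v _ => Finset.mem_range.2 (Nat.lt_succ_of_le (han v)))]
    refine Finset.sum_congr rfl fun i _ => ?_
    rw [hc]
    simp only
    rw [Finset.sum_mul]
    refine Finset.sum_congr rfl fun v hv => ?_
    rw [(Finset.mem_filter.1 hv).2]
  rw [e2]
  have h2 : ∑ v, C v * w v ≤ ∑ v, q v * 2 ^ (D - a v) + 3 * ∑ v, w v := by
    rw [Finset.mul_sum, ← Finset.sum_add_distrib]
    exact Finset.sum_le_sum fun v _ => hq v
  omega

/-- Selecting a prescribed total below a given function. -/
lemma select {ι : Type*} [DecidableEq ι] (S : Finset ι) (f : ι → ℕ) :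
    ∀ n : ℕ, n ≤ ∑ s ∈ S, f s →
    ∃ g : ι → ℕ, (∀ s, g s ≤ f s) ∧ (∀ s, s ∉ S → g s = 0) ∧ ∑ s ∈ S, g s = n := by
  induction S using Finset.induction_on with
  | empty =>
    intro n hn
    refine ⟨fun _ => 0, fun _ => Nat.zero_le _, fun _ _ => rfl, ?_⟩
    simp at hn ⊢
    exact hn.symm
  | insert a S ha ih =>
    intro n hn
    rw [Finset.sum_insert ha] at hn
    obtain ⟨g, hg, hg0, hgs⟩ := ih (n - f a) (by omega)
    by_cases hna : n ≤ f a
    · refine ⟨fun s => if s = a then n else 0, fun s => ?_, fun s hs => ?_, ?_⟩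
      · by_cases h : s = a
        · simp [h, hna]
        · simp [h]
      · have : s ≠ a := fun h => hs (by simp [h])
        simp [this]
      · rw [Finset.sum_insert ha]
        rw [Finset.sum_eq_zero]
        · simp
        · intro s hs
          have : s ≠ a := fun h => ha (h ▸ hs)
          simp [this]
    · refine ⟨fun s => if s = a then f a else g s, fun s => ?_, fun s hs => ?_, ?_⟩
      · by_cases h : s = a
        · simp [h]
        · simp [h, hg s]
      · have h1 : s ≠ a := fun h => hs (by simp [h])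
        have h2 : s ∉ S := fun h => hs (by simp [h])
        simp [h1, hg0 s h2]
      · rw [Finset.sum_insert ha]
        have e : ∑ s ∈ S, (if s = a then f a else g s) = ∑ s ∈ S, g s := by
          refine Finset.sum_congr rfl fun s hs => ?_
          have : s ≠ a := fun h => ha (h ▸ hs)
          simp [this]
        rw [e, hgs]
        simp
        omega

end Pool.Agent.Lib.MP_ef3cf3_co
end

section

/-!
The graph of the counterexample: six long lines (three of type `true`, three of type `false`), all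
levels of which are cliques, nine sources above them and two targets below them.
-/

namespace Pool.Agent.Lib.MP_ef3cf3_co

open Finset Relation

/-- The vertices: nine sources `(i, j)`, six lines `(b, i)` with sixteen levels, two targets. -/
abbrev Vx := (Fin 3 × Fin 3) ⊕ (Bool × Fin 3 × Fin 16) ⊕ Bool

/-- A source. -/
@[match_pattern] abbrev src (s : Fin 3 × Fin 3) : Vx := Sum.inl s

/-- The vertex on level `t` of the line `i` of type `b`. -/
@[match_pattern] abbrev lay (b : Bool) (i : Fin 3) (t : Fin 16) : Vx := Sum.inr (Sum.inl (b, i, t))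

/-- A target. -/
@[match_pattern] abbrev tgt (b : Bool) : Vx := Sum.inr (Sum.inr b)

/-- The line of type `b` to which the source `s` belongs: rows for `b = true`, columns for
`b = false`. -/
def own (b : Bool) (s : Fin 3 × Fin 3) : Fin 3 := if b then s.1 else s.2

/-- The adjacency relation. -/
def adjR : Vx → Vx → Prop
  | src s, lay b i t => i = own b s ∧ t = 15
  | lay b i t, src s => i = own b s ∧ t = 15
  | lay b i t, lay b' i' t' =>
      (b = b' ∧ i = i' ∧ (t.val = t'.val + 1 ∨ t'.val = t.val + 1)) ∨ (¬ (b = b' ∧ i = i') ∧ t = t')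
  | lay b _ t, tgt b' => b = b' ∧ t = 0
  | tgt b', lay b _ t => b = b' ∧ t = 0
  | src _, src _ => False
  | src _, tgt _ => False
  | tgt _, src _ => False
  | tgt _, tgt _ => False

/-- The graph. -/
def Gr : SimpleGraph Vx where
  Adj := adjR
  symm := ⟨by
    rintro (s | ⟨b, i, t⟩ | b) (s' | ⟨b', i', t'⟩ | b') h
    · exact h
    · exact h
    · exact h
    · exact h
    · rcases h with ⟨h1, h2, h3⟩ | ⟨h1, h2⟩
      · exact Or.inl ⟨h1.symm, h2.symm, h3.symm⟩
      · exact Or.inr ⟨fun h => h1 ⟨h.1.symm, h.2.symm⟩, h2.symm⟩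
    · exact h
    · exact h
    · exact h
    · exact h⟩
  loopless := ⟨by
    rintro (s | ⟨b, i, t⟩ | b) h
    · exact h
    · rcases h with ⟨_, _, h⟩ | ⟨h, _⟩
      · omega
      · exact h ⟨rfl, rfl⟩
    · exact h⟩

lemma adj_src (b : Bool) (s : Fin 3 × Fin 3) : Gr.Adj (src s) (lay b (own b s) 15) := ⟨rfl, rfl⟩

lemma adj_level {b b' : Bool} {i i' : Fin 3} (h : ¬ (b = b' ∧ i = i')) (t : Fin 16) :
    Gr.Adj (lay b i t) (lay b' i' t) := Or.inr ⟨h, rfl⟩

lemma adj_line (b : Bool) (i : Fin 3) {t t' : Fin 16} (h : t.val = t'.val + 1) :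
    Gr.Adj (lay b i t) (lay b i t') := Or.inl ⟨rfl, rfl, Or.inl h⟩

lemma adj_tgt (b : Bool) (i : Fin 3) : Gr.Adj (lay b i 0) (tgt b) := ⟨rfl, rfl⟩

lemma reach_bottom : ∀ (n : ℕ) (h : n < 16) (b : Bool) (i : Fin 3),
    Gr.Reachable (lay b i ⟨n, h⟩) (lay b i 0) := by
  intro n
  induction n with
  | zero => intro h b i; exact SimpleGraph.Reachable.refl _
  | succ n ih =>
    intro h b i
    exact (SimpleGraph.Adj.reachable (adj_line b i (t := ⟨n + 1, h⟩) (t' := ⟨n, by omega⟩) rfl)).trans
      (ih (by omega) b i)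

lemma reach_bottom' (b : Bool) (i : Fin 3) : Gr.Reachable (lay b i 0) (lay true 0 0) := by
  by_cases h : b = true ∧ i = 0
  · obtain ⟨rfl, rfl⟩ := h
    exact SimpleGraph.Reachable.refl _
  · exact (adj_level h 0).reachable

lemma reach_base (v : Vx) : Gr.Reachable v (lay true 0 0) := by
  rcases v with s | ⟨b, i, t⟩ | b
  · exact ((adj_src true s).reachable.trans (reach_bottom 15 (by norm_num) _ _)).trans
      (reach_bottom' _ _)
  · exact (reach_bottom t.val t.isLt b i).trans (reach_bottom' _ _)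
  · exact (adj_tgt b 0).symm.reachable.trans (reach_bottom' _ _)

lemma Gr_connected : Gr.Connected := by
  have : Nonempty Vx := ⟨tgt true⟩
  exact SimpleGraph.Connected.mk fun u v => (reach_base u).trans (reach_base v).symm

/-- Sums over the vertices. -/
lemma sum_Vx (F : Vx → ℕ) : ∑ v, F v
    = ∑ s, F (src s) + (∑ x : Bool × Fin 3 × Fin 16, F (Sum.inr (Sum.inl x)) +
      (F (tgt true) + F (tgt false))) := by
  rw [Fintype.sum_sum_type, Fintype.sum_sum_type]
  congr 2

/-! ### Moves -/

lemma mv_refl (v : Vx) (m : ℕ) : Solvable Gr (Pi.single v (m * 2 ^ 0)) (Pi.single v m) := by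
  rw [pow_zero, mul_one]
  exact solvable_refl _

lemma mv_one {u v : Vx} (h : Gr.Adj u v) (m : ℕ) :
    Solvable Gr (Pi.single u (m * 2 ^ 1)) (Pi.single v m) := by
  rw [pow_one]
  exact solvable_edge h m

lemma mv_two {u v w : Vx} (h : Gr.Adj u v) (h' : Gr.Adj v w) (m : ℕ) :
    Solvable Gr (Pi.single u (m * 2 ^ 2)) (Pi.single w m) := by
  have e : m * 2 ^ 2 = (m * 2) * 2 := by ring
  rw [e]
  exact (solvable_edge h _).trans (solvable_edge h' _)

/-- From level `t` of any line to level `t` of a given line. -/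
lemma mv_level (b b' : Bool) (i i' : Fin 3) (t : Fin 16) :
    ∃ e ≤ 1, ∀ m, Solvable Gr (Pi.single (lay b' i' t) (m * 2 ^ e)) (Pi.single (lay b i t) m) := by
  by_cases h : b' = b ∧ i' = i
  · obtain ⟨rfl, rfl⟩ := h
    exact ⟨0, by norm_num, mv_refl _⟩
  · exact ⟨1, le_rfl, mv_one (adj_level h t)⟩

/-- From a source to the top level of a given line. -/
lemma mv_src_top (b : Bool) (i : Fin 3) (s : Fin 3 × Fin 3) :
    ∃ e ≤ 2, 1 ≤ e ∧ (own b s = i → e = 1) ∧
      ∀ m, Solvable Gr (Pi.single (src s) (m * 2 ^ e)) (Pi.single (lay b i 15) m) := by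
  by_cases h : own b s = i
  · subst h
    exact ⟨1, by norm_num, le_rfl, fun _ => rfl, mv_one (adj_src b s)⟩
  · exact ⟨2, le_rfl, by norm_num, fun h' => absurd h' h,
      mv_two (adj_src b s) (adj_level (fun h' => h h'.2) 15)⟩

/-- From a target to the bottom level of a given line. -/
lemma mv_tgt_bottom (b b' : Bool) (i : Fin 3) :
    ∃ e ≤ 2, (b' = b → e = 1) ∧
      ∀ m, Solvable Gr (Pi.single (tgt b') (m * 2 ^ e)) (Pi.single (lay b i 0) m) := by
  by_cases h : b' = b
  · subst h
    exact ⟨1, by norm_num, fun _ => rfl, mv_one (adj_tgt b' i).symm⟩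
  · exact ⟨2, le_rfl, fun h' => absurd h' h,
      mv_two (adj_tgt b' 0).symm (adj_level (fun h' => h h'.1) 0)⟩

end Pool.Agent.Lib.MP_ef3cf3_co
end

section

/-!
Every configuration with `328500` pebbles reaches two pebbles on a given target.
-/

namespace Pool.Agent.Lib.MP_ef3cf3_co

open Finset Relation

/-- The line vertices with natural number levels. -/
def lv (b : Bool) (i : Fin 3) (t : ℕ) : Vx := lay b i (Fin.ofNat 16 t)

lemma lv_val (b : Bool) (i : Fin 3) (t : Fin 16) : lv b i t.val = lay b i t := by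
  unfold lv
  congr 1
  congr 1
  congr 1
  congr 1
  ext
  simp

lemma adj_lv (b : Bool) (i : Fin 3) {t : ℕ} (h : t + 1 < 16) :
    Gr.Adj (lv b i (t + 1)) (lv b i t) := by
  refine adj_line b i ?_
  simp only [Fin.val_ofNat]
  omega

lemma card_Vx : Fintype.card Vx = 107 := by decide

/-- Weights for the delivery to `tgt b` along the line `i`. -/
def wl (b : Bool) (i : Fin 3) : Vx → ℕ
  | src s => if own b s = i then 2 else 1
  | _ => 2

lemma sum_wl_le (b : Bool) (i : Fin 3) : ∑ v, wl b i v ≤ 214 := by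
  have h : ∀ v ∈ (univ : Finset Vx), wl b i v ≤ 2 := by
    rintro (s | ⟨b, i, t⟩ | b) _
    · simp only [wl]
      split_ifs <;> norm_num
    · simp [wl]
    · simp [wl]
  have := Finset.sum_le_card_nsmul univ (wl b i) 2 h
  rw [Finset.card_univ, card_Vx] at this
  simpa using this

/-- The path from the target up the line. -/
def pt (b : Bool) (i : Fin 3) : ℕ → Vx
  | 0 => tgt b
  | k + 1 => lv b i k

lemma adj_pt (b : Bool) (i : Fin 3) : ∀ k < 16, Gr.Adj (pt b i (k + 1)) (pt b i k) := by
  intro k hk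
  cases k with
  | zero => exact adj_tgt b i
  | succ k => exact adj_lv b i hk

lemma upper_tgt_line (b : Bool) (i : Fin 3) (C : Vx → ℕ) (k : ℕ)
    (h : k * 2 ^ 18 + 642 ≤ ∑ v, C v * wl b i v) : Solvable Gr C (Pi.single (tgt b) k) := by
  refine collect (pt b i) 16 18 (by norm_num) (adj_pt b i) C (wl b i) k ?_ ?_
  · rintro (s | ⟨b', i', t⟩ | b')
    · right
      obtain ⟨e, he2, he1, hes, hm⟩ := mv_src_top b i s
      refine ⟨16, e, le_rfl, he2, ?_, hm⟩
      simp only [wl]
      split_ifs with h1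
      · rw [hes h1]; norm_num
      · interval_cases e <;> norm_num
    · right
      obtain ⟨e, he1, hm⟩ := mv_level b b' i i' t
      refine ⟨t.val + 1, e, by omega, by omega, ?_, ?_⟩
      · simp only [wl]
        calc 2 * 2 ^ (t.val + 1 + e) = 2 ^ (t.val + 1 + e + 1) := by rw [pow_succ]; ring
          _ ≤ 2 ^ 18 := Nat.pow_le_pow_right (by norm_num) (by omega)
      · intro m
        show Solvable Gr _ (Pi.single (lv b i t.val) m)
        rw [lv_val]
        exact hm m
    · right
      by_cases h1 : b' = b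
      · subst h1
        exact ⟨0, 0, by norm_num, by norm_num, by simp [wl], mv_refl _⟩
      · obtain ⟨e, he2, _, hm⟩ := mv_tgt_bottom b b' i
        refine ⟨1, e, by norm_num, he2, ?_, hm⟩
        simp only [wl]
        interval_cases e <;> norm_num
  · have := sum_wl_le b i
    omega

/-- From level `t` of a line down to its target. -/
lemma descend (b : Bool) (i : Fin 3) : ∀ (t : ℕ) (_ : t < 16) (m : ℕ),
    Solvable Gr (Pi.single (lv b i t) (m * 2 ^ (t + 1))) (Pi.single (tgt b) m) := by
  intro t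
  induction t with
  | zero => intro _ m; exact mv_one (adj_tgt b i) m
  | succ t ih =>
    intro ht m
    have e : m * 2 ^ (t + 1 + 1) = (m * 2 ^ (t + 1)) * 2 := by rw [pow_succ]; ring
    rw [e]
    exact (solvable_edge (adj_lv b i ht) _).trans (ih (by omega) m)

lemma upper_tgt_src (b : Bool) (i : Fin 3) (g : Fin 3 × Fin 3 → ℕ) (hg : ∑ s, g s = 2 ^ 16) :
    Solvable Gr (∑ s, Pi.single (src s) ((if own b s = i then 2 else 4) * g s))
      (Pi.single (tgt b) 1) := by
  have h1 : Solvable Gr (∑ s, Pi.single (src s) ((if own b s = i then 2 else 4) * g s))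
      (∑ s, Pi.single (lay b i 15) (g s)) := by
    refine Solvable.sum _ _ _ fun s _ => ?_
    obtain ⟨e, he2, he1, hes, hm⟩ := mv_src_top b i s
    refine Solvable.mono (hm (g s)) ?_ le_rfl
    rw [Pi.single_le_single]
    split_ifs with h
    · rw [hes h]; omega
    · interval_cases e <;> omega
  have h2 : (∑ s, Pi.single (lay b i 15) (g s) : Vx → ℕ) = Pi.single (lay b i 15) (2 ^ 16) := by
    rw [← hg]
    funext x
    rw [Finset.sum_apply]
    by_cases hx : x = lay b i 15
    · subst hx
      simp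
    · simp [Pi.single_eq_of_ne hx]
  rw [h2] at h1
  refine h1.trans ?_
  have h3 := descend b i 15 (by norm_num) 1
  rw [one_mul] at h3
  exact h3

/-- The sources on the line `i` of type `b`. -/
def row (b : Bool) (i : Fin 3) : Finset (Fin 3 × Fin 3) := univ.filter fun s => own b s = i

lemma mem_row {b : Bool} {i : Fin 3} {s : Fin 3 × Fin 3} : s ∈ row b i ↔ own b s = i := by
  simp [row]

lemma card_row (b : Bool) (i : Fin 3) : (row b i).card = 3 := by
  revert b i
  decide

lemma sum_rows (b : Bool) (σ : Equiv.Perm (Fin 3)) (F : Fin 3 × Fin 3 → ℕ) :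
    ∑ s, F s = ∑ s ∈ row b (σ 0), F s + ∑ s ∈ row b (σ 1), F s + ∑ s ∈ row b (σ 2), F s := by
  have h1 : ∑ i : Fin 3, ∑ s ∈ row b i, F s = ∑ s, F s :=
    Finset.sum_fiberwise (s := univ) (g := own b) (f := F)
  rw [← h1, ← Equiv.sum_comp σ, Fin.sum_univ_three]

/-- The weighted sum. -/
lemma sum_wl (b : Bool) (i : Fin 3) (C : Vx → ℕ) :
    ∑ v, C v * wl b i v + ∑ s, C (src s) = 2 * ∑ v, C v + ∑ s ∈ row b i, C (src s) := by
  rw [sum_Vx, sum_Vx]
  simp only [wl]
  have h1 : ∑ s : Fin 3 × Fin 3, C (src s) * (if own b s = i then 2 else 1)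
      = ∑ s, C (src s) + ∑ s ∈ row b i, C (src s) := by
    rw [row, Finset.sum_filter, ← Finset.sum_add_distrib]
    refine Finset.sum_congr rfl fun s _ => ?_
    split_ifs <;> ring
  rw [h1, ← Finset.sum_mul]
  ring

lemma row_half (b : Bool) (i : Fin 3) (F : Fin 3 × Fin 3 → ℕ) :
    ∑ s ∈ row b i, F s ≤ 2 * ∑ s ∈ row b i, F s / 2 + 3 ∧
      2 * ∑ s ∈ row b i, F s / 2 ≤ ∑ s ∈ row b i, F s := by
  constructor
  · have : ∑ s ∈ row b i, F s ≤ ∑ s ∈ row b i, (2 * (F s / 2) + 1) :=
      Finset.sum_le_sum fun s _ => by omega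
    rw [Finset.sum_add_distrib, ← Finset.mul_sum, Finset.sum_const, card_row] at this
    simpa using this
  · rw [Finset.mul_sum]
    exact Finset.sum_le_sum fun s _ => by omega

lemma row_quarter (b : Bool) (i : Fin 3) (F : Fin 3 × Fin 3 → ℕ) :
    ∑ s ∈ row b i, F s ≤ 4 * ∑ s ∈ row b i, F s / 4 + 9 ∧
      4 * ∑ s ∈ row b i, F s / 4 ≤ ∑ s ∈ row b i, F s := by
  constructor
  · have : ∑ s ∈ row b i, F s ≤ ∑ s ∈ row b i, (4 * (F s / 4) + 3) :=
      Finset.sum_le_sum fun s _ => by omega
    rw [Finset.sum_add_distrib, ← Finset.mul_sum, Finset.sum_const, card_row] at this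
    simpa using this
  · rw [Finset.mul_sum]
    exact Finset.sum_le_sum fun s _ => by omega

/-- Two lines: the line `i₁` is fed by sources only, in the amounts `F₁, F₂, F₃` (measured at its
top level), and everything else goes down the line `i₂`. -/
lemma two_lines (b : Bool) (σ : Equiv.Perm (Fin 3)) (C : Vx → ℕ) (F₁ F₂ F₃ : ℕ)
    (h₁ : F₁ ≤ ∑ s ∈ row b (σ 2), C (src s) / 2) (h₂ : F₂ ≤ ∑ s ∈ row b (σ 1), C (src s) / 4)
    (h₃ : F₃ ≤ ∑ s ∈ row b (σ 0), C (src s) / 4) (hF : F₁ + F₂ + F₃ = 2 ^ 16)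
    (h : 2 ^ 18 + 642 + (2 * F₁ + 8 * F₂ + 4 * F₃) ≤ ∑ v, C v * wl b (σ 1) v) :
    Solvable Gr C (Pi.single (tgt b) 2) := by
  obtain ⟨g₁, hg₁, hz₁, hs₁⟩ := select _ _ _ h₁
  obtain ⟨g₂, hg₂, hz₂, hs₂⟩ := select _ _ _ h₂
  obtain ⟨g₃, hg₃, hz₃, hs₃⟩ := select _ _ _ h₃
  have d21 : σ 2 ≠ σ 1 := fun h => by have := σ.injective h; exact absurd this (by decide)
  have d20 : σ 2 ≠ σ 0 := fun h => by have := σ.injective h; exact absurd this (by decide)
  have d10 : σ 1 ≠ σ 0 := fun h => by have := σ.injective h; exact absurd this (by decide)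
  have hcase : ∀ s, own b s = σ 0 ∨ own b s = σ 1 ∨ own b s = σ 2 := by
    intro s
    obtain ⟨x, hx⟩ := σ.surjective (own b s)
    fin_cases x
    · left; exact hx.symm
    · right; left; exact hx.symm
    · right; right; exact hx.symm
  set g : Fin 3 × Fin 3 → ℕ := fun s => g₁ s + g₂ s + g₃ s with hg
  have gr2 : ∀ s ∈ row b (σ 2), g s = g₁ s := by
    intro s hs
    rw [mem_row] at hs
    have h2 := hz₂ s (by rw [mem_row, hs]; exact d21)
    have h3 := hz₃ s (by rw [mem_row, hs]; exact d20)
    simp [hg, h2, h3]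
  have gr1 : ∀ s ∈ row b (σ 1), g s = g₂ s := by
    intro s hs
    rw [mem_row] at hs
    have h2 := hz₁ s (by rw [mem_row, hs]; exact d21.symm)
    have h3 := hz₃ s (by rw [mem_row, hs]; exact d10)
    simp [hg, h2, h3]
  have gr0 : ∀ s ∈ row b (σ 0), g s = g₃ s := by
    intro s hs
    rw [mem_row] at hs
    have h2 := hz₁ s (by rw [mem_row, hs]; exact d20.symm)
    have h3 := hz₂ s (by rw [mem_row, hs]; exact d10.symm)
    simp [hg, h2, h3]
  have hgs : ∑ s, g s = 2 ^ 16 := by
    rw [sum_rows b σ, Finset.sum_congr rfl gr0, Finset.sum_congr rfl gr1, Finset.sum_congr rfl gr2,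
      hs₁, hs₂, hs₃]
    omega
  have hS1 := upper_tgt_src b (σ 2) g hgs
  set C₁ : Vx → ℕ := ∑ s, Pi.single (src s) ((if own b s = σ 2 then 2 else 4) * g s) with hC₁
  have hC₁src : ∀ s, C₁ (src s) = (if own b s = σ 2 then 2 else 4) * g s := by
    intro s
    rw [hC₁, Finset.sum_apply, Finset.sum_eq_single s]
    · rw [Pi.single_eq_same]
    · intro s' _ hs'
      exact Pi.single_eq_of_ne (by simpa using hs'.symm) _
    · simp
  have hC₁oth : ∀ x, C₁ (Sum.inr x) = 0 := by
    intro x
    rw [hC₁, Finset.sum_apply]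
    exact Finset.sum_eq_zero fun s _ => Pi.single_eq_of_ne (by simp) _
  have hle : C₁ ≤ C := by
    rintro (s | x)
    · rw [hC₁src]
      rcases hcase s with h | h | h
      · rw [gr0 s (mem_row.2 h), if_neg (by rw [h]; exact d20.symm)]
        have := hg₃ s
        show 4 * g₃ s ≤ C (src s)
        omega
      · rw [gr1 s (mem_row.2 h), if_neg (by rw [h]; exact d21.symm)]
        have := hg₂ s
        show 4 * g₂ s ≤ C (src s)
        omega
      · rw [gr2 s (mem_row.2 h), if_pos h]
        have := hg₁ s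
        show 2 * g₁ s ≤ C (src s)
        omega
    · rw [hC₁oth]
      exact Nat.zero_le _
  have hsplit : C = (C - C₁) + C₁ := by rw [tsub_add_cancel_of_le hle]
  have hw : ∑ v, C v * wl b (σ 1) v = ∑ v, (C - C₁) v * wl b (σ 1) v + ∑ v, C₁ v * wl b (σ 1) v := by
    rw [← Finset.sum_add_distrib]
    refine Finset.sum_congr rfl fun v _ => ?_
    conv_lhs => rw [hsplit]
    rw [Pi.add_apply, add_mul]
  have hw1 : ∑ v, C₁ v * wl b (σ 1) v = 2 * F₁ + 8 * F₂ + 4 * F₃ := by
    rw [sum_Vx]
    simp only [hC₁oth, zero_mul, Finset.sum_const_zero, add_zero]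
    simp only [hC₁src]
    rw [sum_rows b σ]
    have e0 : ∑ s ∈ row b (σ 0), (if own b s = σ 2 then 2 else 4) * g s * wl b (σ 1) (src s)
        = 4 * F₃ := by
      rw [← hs₃, Finset.mul_sum]
      refine Finset.sum_congr rfl fun s hs => ?_
      rw [gr0 s hs]
      rw [mem_row] at hs
      simp only [wl]
      rw [if_neg (by rw [hs]; exact d20.symm), if_neg (by rw [hs]; exact d10.symm), mul_one]
    have e1 : ∑ s ∈ row b (σ 1), (if own b s = σ 2 then 2 else 4) * g s * wl b (σ 1) (src s)
        = 8 * F₂ := by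
      rw [← hs₂, Finset.mul_sum]
      refine Finset.sum_congr rfl fun s hs => ?_
      rw [gr1 s hs]
      rw [mem_row] at hs
      simp only [wl]
      rw [if_neg (by rw [hs]; exact d21.symm), if_pos hs]
      ring
    have e2 : ∑ s ∈ row b (σ 2), (if own b s = σ 2 then 2 else 4) * g s * wl b (σ 1) (src s)
        = 2 * F₁ := by
      rw [← hs₁, Finset.mul_sum]
      refine Finset.sum_congr rfl fun s hs => ?_
      rw [gr2 s hs]
      rw [mem_row] at hs
      simp only [wl]
      rw [if_pos hs, if_neg (by rw [hs]; exact d21), mul_one]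
    rw [e0, e1, e2]
    ring
  have hS2 : Solvable Gr (C - C₁) (Pi.single (tgt b) 1) := by
    refine upper_tgt_line b (σ 1) _ 1 ?_
    omega
  have := hS2.add hS1
  rw [← hsplit, ← Pi.single_add] at this
  exact this

theorem upper_tgt (b : Bool) (C : Vx → ℕ) (hC : 328500 ≤ ∑ v, C v) :
    Solvable Gr C (Pi.single (tgt b) 2) := by
  set m : Fin 3 → ℕ := fun i => ∑ s ∈ row b i, C (src s) with hm
  set σ : Equiv.Perm (Fin 3) := Tuple.sort m with hσ
  have hmono : Monotone (m ∘ σ) := Tuple.monotone_sort m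
  have hm01 : m (σ 0) ≤ m (σ 1) := hmono (by decide)
  have hm12 : m (σ 1) ≤ m (σ 2) := hmono (by decide)
  have hS : ∑ s, C (src s) = m (σ 0) + m (σ 1) + m (σ 2) := sum_rows b σ _
  have hw2 : ∑ v, C v * wl b (σ 2) v + ∑ s, C (src s) = 2 * ∑ v, C v + m (σ 2) :=
    sum_wl b (σ 2) C
  have hw1 : ∑ v, C v * wl b (σ 1) v + ∑ s, C (src s) = 2 * ∑ v, C v + m (σ 1) :=
    sum_wl b (σ 1) C
  have hST : ∑ s, C (src s) ≤ ∑ v, C v := by
    rw [sum_Vx C]
    omega
  obtain ⟨hf1, hf1'⟩ := row_half b (σ 2) (fun s => C (src s))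
  obtain ⟨hf2, hf2'⟩ := row_quarter b (σ 1) (fun s => C (src s))
  obtain ⟨hf3, hf3'⟩ := row_quarter b (σ 0) (fun s => C (src s))
  have em2 : ∑ s ∈ row b (σ 2), C (src s) = m (σ 2) := rfl
  have em1 : ∑ s ∈ row b (σ 1), C (src s) = m (σ 1) := rfl
  have em0 : ∑ s ∈ row b (σ 0), C (src s) = m (σ 0) := rfl
  rw [em2] at hf1 hf1'
  rw [em1] at hf2 hf2'
  rw [em0] at hf3 hf3'
  by_cases h1 : 2 * 2 ^ 18 + 642 ≤ ∑ v, C v * wl b (σ 2) v
  · exact upper_tgt_line b (σ 2) C 2 h1
  push Not at h1
  set f1 := ∑ s ∈ row b (σ 2), C (src s) / 2 with hf1d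
  set f2 := ∑ s ∈ row b (σ 1), C (src s) / 4 with hf2d
  set f3 := ∑ s ∈ row b (σ 0), C (src s) / 4 with hf3d
  by_cases h2 : 2 ^ 16 ≤ f1
  · exact two_lines b σ C (2 ^ 16) 0 0 h2 (Nat.zero_le _) (Nat.zero_le _) (by norm_num) (by omega)
  by_cases h3 : 2 ^ 16 ≤ f1 + f3
  · exact two_lines b σ C f1 0 (2 ^ 16 - f1) le_rfl (Nat.zero_le _) (by omega) (by omega) (by omega)
  · exact two_lines b σ C f1 (2 ^ 16 - f1 - f3) f3 le_rfl (by omega) le_rfl (by omega) (by omega)

end Pool.Agent.Lib.MP_ef3cf3_co
end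

section

/-!
Every configuration with `328500` pebbles reaches two pebbles on a given source or line vertex.
-/

namespace Pool.Agent.Lib.MP_ef3cf3_co

open Finset Relation

/-! ### Sources -/

/-- Weights for the delivery to a source along a line of type `b`. -/
def wsr (b : Bool) : Vx → ℕ
  | tgt b' => if b' = b then 2 else 1
  | _ => 2

lemma sum_wsr_le (b : Bool) : ∑ v, wsr b v ≤ 214 := by
  have h : ∀ v ∈ (univ : Finset Vx), wsr b v ≤ 2 := by
    rintro (s | ⟨b, i, t⟩ | b') _
    · simp [wsr]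
    · simp [wsr]
    · simp only [wsr]
      split_ifs <;> norm_num
  have := Finset.sum_le_card_nsmul univ (wsr b) 2 h
  rw [Finset.card_univ, card_Vx] at this
  simpa using this

/-- The path from the source down the line. -/
def ps (b : Bool) (s : Fin 3 × Fin 3) : ℕ → Vx
  | 0 => src s
  | k + 1 => lv b (own b s) (15 - k)

lemma adj_ps (b : Bool) (s : Fin 3 × Fin 3) : ∀ k < 16, Gr.Adj (ps b s (k + 1)) (ps b s k) := by
  intro k hk
  cases k with
  | zero =>
    show Gr.Adj (lv b (own b s) 15) (src s)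
    exact (adj_src b s).symm
  | succ k =>
    show Gr.Adj (lv b (own b s) (15 - (k + 1))) (lv b (own b s) (15 - k))
    have e : 15 - k = (15 - (k + 1)) + 1 := by omega
    rw [e]
    exact (adj_lv b (own b s) (by omega)).symm

lemma upper_src_line (b : Bool) (s₀ : Fin 3 × Fin 3) (C : Vx → ℕ) (k : ℕ)
    (h : k * 2 ^ 18 + 642 ≤ ∑ v, C v * wsr b v) : Solvable Gr C (Pi.single (src s₀) k) := by
  refine collect (ps b s₀) 16 18 (by norm_num) (adj_ps b s₀) C (wsr b) k ?_ ?_
  · rintro (s | ⟨b', i', t⟩ | b')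
    · right
      obtain ⟨e, he2, he1, hes, hm⟩ := mv_src_top b (own b s₀) s
      refine ⟨1, e, by norm_num, he2, ?_, hm⟩
      simp only [wsr]
      interval_cases e <;> norm_num
    · right
      obtain ⟨e, he1, hm⟩ := mv_level b b' (own b s₀) i' t
      have ht := t.isLt
      refine ⟨16 - t.val, e, by omega, by omega, ?_, ?_⟩
      · simp only [wsr]
        calc 2 * 2 ^ (16 - t.val + e) = 2 ^ (16 - t.val + e + 1) := by rw [pow_succ]; ring
          _ ≤ 2 ^ 18 := Nat.pow_le_pow_right (by norm_num) (by omega)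
      · intro m
        have e1 : ps b s₀ (16 - t.val) = lay b (own b s₀) t := by
          have e2 : 16 - t.val = (15 - t.val) + 1 := by omega
          rw [e2]
          show lv b (own b s₀) (15 - (15 - t.val)) = _
          have e3 : 15 - (15 - t.val) = t.val := by omega
          rw [e3, lv_val]
        rw [e1]
        exact hm m
    · right
      obtain ⟨e, he2, heb, hm⟩ := mv_tgt_bottom b b' (own b s₀)
      refine ⟨16, e, le_rfl, he2, ?_, hm⟩
      simp only [wsr]
      split_ifs with h1
      · rw [heb h1]; norm_num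
      · interval_cases e <;> norm_num
  · have := sum_wsr_le b
    omega

/-- From a target up to level `t` of a line of its type. -/
lemma ascend (b : Bool) (i : Fin 3) : ∀ (t : ℕ) (_ : t < 16) (m : ℕ),
    Solvable Gr (Pi.single (tgt b) (m * 2 ^ (t + 1))) (Pi.single (lv b i t) m) := by
  intro t
  induction t with
  | zero => intro _ m; exact mv_one (adj_tgt b i).symm m
  | succ t ih =>
    intro ht m
    have e : m * 2 ^ (t + 1 + 1) = (m * 2) * 2 ^ (t + 1) := by rw [pow_succ]; ring
    rw [e]
    exact (ih (by omega) _).trans (solvable_edge (adj_lv b i ht).symm _)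

lemma tgt_to_src (b : Bool) (s : Fin 3 × Fin 3) :
    Solvable Gr (Pi.single (tgt b) (2 ^ 17)) (Pi.single (src s) 1) := by
  have h1 := ascend b (own b s) 15 (by norm_num) 2
  have h2 : Solvable Gr (Pi.single (lv b (own b s) 15) (1 * 2)) (Pi.single (src s) 1) :=
    solvable_edge (adj_src b s).symm 1
  rw [one_mul] at h2
  exact h1.trans h2

theorem upper_src (s₀ : Fin 3 × Fin 3) (C : Vx → ℕ) (hC : 328500 ≤ ∑ v, C v) :
    Solvable Gr C (Pi.single (src s₀) 2) := by
  have key : ∀ b, C (tgt !b) < 2 ^ 17 → Solvable Gr C (Pi.single (src s₀) 2) := by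
    intro b hb
    refine upper_src_line b s₀ C 2 ?_
    have h1 : ∑ v, C v * wsr b v + C (tgt !b) = 2 * ∑ v, C v := by
      rw [sum_Vx, sum_Vx C]
      simp only [wsr]
      rw [← Finset.sum_mul, ← Finset.sum_mul]
      cases b
      · simp
        ring
      · simp
        ring
    omega
  by_cases h1 : C (tgt false) < 2 ^ 17
  · exact key true h1
  by_cases h2 : C (tgt true) < 2 ^ 17
  · exact key false h2
  have h3 := (tgt_to_src true s₀).add (tgt_to_src false s₀)
  rw [← Pi.single_add] at h3
  refine h3.mono ?_ le_rfl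
  intro v
  rw [Pi.add_apply]
  by_cases hv : v = tgt true
  · subst hv
    rw [Pi.single_eq_same, Pi.single_eq_of_ne (by simp)]
    show 2 ^ 17 + 0 ≤ C (tgt true)
    omega
  · by_cases hv' : v = tgt false
    · subst hv'
      rw [Pi.single_eq_same, Pi.single_eq_of_ne (by simp)]
      show 0 + 2 ^ 17 ≤ C (tgt false)
      omega
    · rw [Pi.single_eq_of_ne hv, Pi.single_eq_of_ne hv']
      exact Nat.zero_le _

/-! ### Line vertices -/

/-- Weights for the part above level `t`. -/
def wup (t : ℕ) : Vx → ℕ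
  | src _ => 1
  | lay _ _ t' => if t ≤ t'.val then 1 else 0
  | tgt _ => 0

/-- Weights for the part below level `t`. -/
def wdn (t : ℕ) : Vx → ℕ
  | src _ => 0
  | lay _ _ t' => if t ≤ t'.val then 0 else 1
  | tgt _ => 1

lemma wup_add_wdn (t : ℕ) (v : Vx) : wup t v + wdn t v = 1 := by
  rcases v with s | ⟨b, i, t'⟩ | b
  · rfl
  · simp only [wup, wdn]
    split_ifs <;> rfl
  · rfl

lemma upper_up (b : Bool) (i : Fin 3) (t : ℕ) (ht : t < 16) (C : Vx → ℕ)
    (h : 2 * 2 ^ (17 - t) + 3 * ∑ v, wup t v ≤ ∑ v, C v * wup t v) :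
    Solvable Gr C (Pi.single (lv b i t) 2) := by
  refine collect (fun k => lv b i (t + k)) (15 - t) (17 - t) (by omega) ?_ C (wup t) 2 ?_ h
  · intro k hk
    exact adj_lv b i (t := t + k) (by omega)
  · rintro (s | ⟨b', i', t'⟩ | b')
    · right
      obtain ⟨e, he2, he1, hes, hm⟩ := mv_src_top b i s
      refine ⟨15 - t, e, le_rfl, he2, ?_, ?_⟩
      · simp only [wup, one_mul]
        exact Nat.pow_le_pow_right (by norm_num) (by omega)
      · intro m
        have e1 : lv b i (t + (15 - t)) = lay b i 15 := by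
          have e2 : t + (15 - t) = (15 : Fin 16).val := by
            show t + (15 - t) = 15
            omega
          rw [e2, lv_val]
        show Solvable Gr _ (Pi.single (lv b i (t + (15 - t))) m)
        rw [e1]
        exact hm m
    · by_cases htt : t ≤ t'.val
      · right
        obtain ⟨e, he1, hm⟩ := mv_level b b' i i' t'
        have ht' := t'.isLt
        refine ⟨t'.val - t, e, by omega, by omega, ?_, ?_⟩
        · simp only [wup, if_pos htt, one_mul]
          exact Nat.pow_le_pow_right (by norm_num) (by omega)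
        · intro m
          have e1 : t + (t'.val - t) = t'.val := by omega
          show Solvable Gr _ (Pi.single (lv b i (t + (t'.val - t))) m)
          rw [e1, lv_val]
          exact hm m
      · left
        simp only [wup, if_neg htt]
    · left
      rfl

lemma upper_dn (b : Bool) (i : Fin 3) (t : ℕ) (ht : t < 16) (C : Vx → ℕ)
    (h : 2 * 2 ^ (t + 2) + 3 * ∑ v, wdn t v ≤ ∑ v, C v * wdn t v) :
    Solvable Gr C (Pi.single (lv b i t) 2) := by
  refine collect (fun k => lv b i (t - k)) t (t + 2) (by omega) ?_ C (wdn t) 2 ?_ h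
  · intro k hk
    show Gr.Adj (lv b i (t - (k + 1))) (lv b i (t - k))
    have e : t - k = (t - (k + 1)) + 1 := by omega
    rw [e]
    exact (adj_lv b i (by omega)).symm
  · rintro (s | ⟨b', i', t'⟩ | b')
    · left
      rfl
    · by_cases htt : t ≤ t'.val
      · left
        simp only [wdn, if_pos htt]
      · right
        obtain ⟨e, he1, hm⟩ := mv_level b b' i i' t'
        refine ⟨t - t'.val, e, by omega, by omega, ?_, ?_⟩
        · simp only [wdn, if_neg htt, one_mul]
          exact Nat.pow_le_pow_right (by norm_num) (by omega)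
        · intro m
          have e1 : t - (t - t'.val) = t'.val := by omega
          show Solvable Gr _ (Pi.single (lv b i (t - (t - t'.val))) m)
          rw [e1, lv_val]
          exact hm m
    · right
      obtain ⟨e, he2, heb, hm⟩ := mv_tgt_bottom b b' i
      refine ⟨t, e, le_rfl, he2, ?_, ?_⟩
      · simp only [wdn, one_mul]
        exact Nat.pow_le_pow_right (by norm_num) (by omega)
      · intro m
        have e1 : lv b i (t - t) = lay b i 0 := by
          rw [Nat.sub_self]
          exact lv_val b i 0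
        show Solvable Gr _ (Pi.single (lv b i (t - t)) m)
        rw [e1]
        exact hm m

theorem upper_lay (b : Bool) (i : Fin 3) (t : Fin 16) (C : Vx → ℕ) (hC : 328500 ≤ ∑ v, C v) :
    Solvable Gr C (Pi.single (lay b i t) 2) := by
  rw [← lv_val]
  have h1 : ∑ v, C v * wup t.val v + ∑ v, C v * wdn t.val v = ∑ v, C v := by
    rw [← Finset.sum_add_distrib]
    refine Finset.sum_congr rfl fun v _ => ?_
    rw [← mul_add, wup_add_wdn, mul_one]
  have h2 : ∑ v, wup t.val v + ∑ v, wdn t.val v = 107 := by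
    rw [← Finset.sum_add_distrib, Finset.sum_congr rfl fun v _ => wup_add_wdn t.val v]
    rw [Finset.sum_const, Finset.card_univ, card_Vx]
    rfl
  have h3 : ∀ t : Fin 16, 2 * 2 ^ (17 - t.val) + 2 * 2 ^ (t.val + 2) + 642 ≤ 328500 := by
    decide
  have h3 := h3 t
  by_cases h4 : 2 * 2 ^ (17 - t.val) + 3 * ∑ v, wup t.val v ≤ ∑ v, C v * wup t.val v
  · exact upper_up b i t.val t.isLt C h4
  · exact upper_dn b i t.val t.isLt C (by omega)

/-- Every configuration with `328500` pebbles reaches two pebbles on every vertex. -/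
theorem upper_all (r : Vx) (C : Vx → ℕ) (hC : 328500 ≤ ∑ v, C v) :
    Solvable Gr C (Pi.single r 2) := by
  rcases r with s | ⟨b, i, t⟩ | b
  · exact upper_src s C hC
  · exact upper_lay b i t C hC
  · exact upper_tgt b C hC

end Pool.Agent.Lib.MP_ef3cf3_co
end

section

/-!
The configuration with `37449` pebbles on every source does not reach both targets.
-/

namespace Pool.Agent.Lib.MP_ef3cf3_co

open Finset Relation

/-- The active line of type `b`. -/
def act (i j : Fin 3) (b : Bool) : Fin 3 := if b then i else j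

/-- The weight for the row line `i` and the column line `j`. -/
def wij (i j : Fin 3) : Vx → ℕ
  | src s => if own true s = i ∨ own false s = j then 2 else 1
  | lay b k t => if k = act i j b then 2 ^ (17 - t.val) else 2 ^ (16 - t.val)
  | tgt _ => 2 ^ 17

/-- The total weight. -/
def Wt (i j : Fin 3) (C : Vx → ℕ) : ℕ := ∑ v, C v * wij i j v

lemma Wt_add (i j : Fin 3) (C E : Vx → ℕ) : Wt i j (C + E) = Wt i j C + Wt i j E := by
  simp only [Wt, Pi.add_apply, add_mul]
  rw [Finset.sum_add_distrib]

lemma Wt_single (i j : Fin 3) (v : Vx) (a : ℕ) : Wt i j (Pi.single v a) = a * wij i j v := by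
  rw [Wt, Finset.sum_eq_single v]
  · simp
  · intro b _ hb
    simp [Pi.single_eq_of_ne hb]
  · simp

lemma wij_adj (i j : Fin 3) {u v : Vx} (h : Gr.Adj u v) : wij i j v ≤ 2 * wij i j u := by
  rcases u with s | ⟨b, k, t⟩ | b <;> rcases v with s' | ⟨b', k', t'⟩ | b'
  · exact h.elim
  · obtain ⟨rfl, rfl⟩ := h
    simp only [wij]
    have e1 : (2 : ℕ) ^ (17 - (15 : Fin 16).val) = 4 := by decide
    have e2 : (2 : ℕ) ^ (16 - (15 : Fin 16).val) = 2 := by decide
    rw [e1, e2]
    by_cases h1 : own b' s = act i j b'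
    · have : own true s = i ∨ own false s = j := by
        cases b'
        · right; exact h1
        · left; exact h1
      rw [if_pos h1, if_pos this]
    · rw [if_neg h1]
      split_ifs <;> norm_num
  · exact h.elim
  · obtain ⟨rfl, rfl⟩ := h
    simp only [wij]
    have e1 : (2 : ℕ) ^ (17 - (15 : Fin 16).val) = 4 := by decide
    have e2 : (2 : ℕ) ^ (16 - (15 : Fin 16).val) = 2 := by decide
    rw [e1, e2]
    split_ifs <;> norm_num
  · simp only [wij]
    have ht := t.isLt
    have ht' := t'.isLt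
    rcases h with ⟨rfl, rfl, h3⟩ | ⟨h1, rfl⟩
    · split_ifs with h1
      · calc (2 : ℕ) ^ (17 - t'.val) ≤ 2 ^ (17 - t.val + 1) :=
            Nat.pow_le_pow_right (by norm_num) (by omega)
          _ = 2 * 2 ^ (17 - t.val) := by rw [pow_succ]; ring
      · calc (2 : ℕ) ^ (16 - t'.val) ≤ 2 ^ (16 - t.val + 1) :=
            Nat.pow_le_pow_right (by norm_num) (by omega)
          _ = 2 * 2 ^ (16 - t.val) := by rw [pow_succ]; ring
    · have e : 17 - t.val = (16 - t.val) + 1 := by omega
      rw [e, pow_succ]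
      have : 0 < 2 ^ (16 - t.val) := by positivity
      split_ifs <;> omega
  · obtain ⟨rfl, rfl⟩ := h
    simp only [wij]
    have e1 : (2 : ℕ) ^ (17 - (0 : Fin 16).val) = 2 ^ 17 := by decide
    have e2 : (2 : ℕ) ^ (16 - (0 : Fin 16).val) = 2 ^ 16 := by decide
    rw [e1, e2]
    split_ifs <;> norm_num
  · exact h.elim
  · obtain ⟨rfl, rfl⟩ := h
    simp only [wij]
    have e1 : (2 : ℕ) ^ (17 - (0 : Fin 16).val) = 2 ^ 17 := by decide
    have e2 : (2 : ℕ) ^ (16 - (0 : Fin 16).val) = 2 ^ 16 := by decide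
    rw [e1, e2]
    split_ifs <;> norm_num
  · exact h.elim

/-- The invariant: `α i` counts the moves from the row line `i` to the first target, `β j` those
from the column line `j` to the second. -/
def Inv (C₀ C : Vx → ℕ) : Prop :=
  ∃ α β : Fin 3 → ℕ, (∀ i j, Wt i j C + 2 ^ 17 * (α i + β j) ≤ Wt i j C₀) ∧
    C (tgt true) ≤ ∑ i, α i ∧ C (tgt false) ≤ ∑ j, β j

lemma Inv_start {C₀ : Vx → ℕ} (h1 : C₀ (tgt true) = 0) (h2 : C₀ (tgt false) = 0) : Inv C₀ C₀ :=
  ⟨fun _ => 0, fun _ => 0, fun i j => by simp, by simp [h1], by simp [h2]⟩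

lemma Inv_step {C₀ C C' : Vx → ℕ} (h : Inv C₀ C) (hs : Step Gr C C') : Inv C₀ C' := by
  obtain ⟨α, β, hW, h1, h2⟩ := h
  rw [step_iff] at hs
  obtain ⟨A, u, v, hadj, rfl, rfl⟩ := hs
  simp only [Wt_add, Wt_single] at hW
  rcases v with s' | ⟨b', k', t'⟩ | b'
  · refine ⟨α, β, fun i j => ?_, ?_, ?_⟩
    · have := hW i j
      have h3 := wij_adj i j hadj
      simp only [Wt_add, Wt_single]
      omega
    · simp only [Pi.add_apply] at h1 ⊢
      rw [Pi.single_eq_of_ne (by simp)]
      omega
    · simp only [Pi.add_apply] at h2 ⊢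
      rw [Pi.single_eq_of_ne (by simp)]
      omega
  · refine ⟨α, β, fun i j => ?_, ?_, ?_⟩
    · have := hW i j
      have h3 := wij_adj i j hadj
      simp only [Wt_add, Wt_single]
      omega
    · simp only [Pi.add_apply] at h1 ⊢
      rw [Pi.single_eq_of_ne (by simp)]
      omega
    · simp only [Pi.add_apply] at h2 ⊢
      rw [Pi.single_eq_of_ne (by simp)]
      omega
  · rcases u with s | ⟨b, k, t⟩ | b
    · exact hadj.elim
    · obtain ⟨rfl, rfl⟩ := hadj
      have e1 : (2 : ℕ) ^ (17 - (0 : Fin 16).val) = 2 ^ 17 := by decide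
      have e2 : (2 : ℕ) ^ (16 - (0 : Fin 16).val) = 2 ^ 16 := by decide
      cases b
      · refine ⟨α, β + Pi.single k 1, fun i j => ?_, ?_, ?_⟩
        · have := hW i j
          simp only [Wt_add, Wt_single, Pi.add_apply]
          simp only [wij, act, e1, e2, Bool.false_eq_true, if_false] at this ⊢
          by_cases hk : k = j
          · subst hk
            simp only [if_true, Pi.single_eq_same] at this ⊢
            omega
          · rw [Pi.single_eq_of_ne (Ne.symm hk)]
            rw [if_neg hk] at this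
            omega
        · simp only [Pi.add_apply] at h1 ⊢
          rw [Pi.single_eq_of_ne (by simp)]
          omega
        · simp only [Pi.add_apply] at h2 ⊢
          rw [Pi.single_eq_same, Finset.sum_add_distrib]
          simp only [Finset.sum_pi_single', Finset.mem_univ, if_true]
          omega
      · refine ⟨α + Pi.single k 1, β, fun i j => ?_, ?_, ?_⟩
        · have := hW i j
          simp only [Wt_add, Wt_single, Pi.add_apply]
          simp only [wij, act, e1, e2, if_true] at this ⊢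
          by_cases hk : k = i
          · subst hk
            simp only [if_true, Pi.single_eq_same] at this ⊢
            omega
          · rw [Pi.single_eq_of_ne (Ne.symm hk)]
            rw [if_neg hk] at this
            omega
        · simp only [Pi.add_apply] at h1 ⊢
          rw [Pi.single_eq_same, Finset.sum_add_distrib]
          simp only [Finset.sum_pi_single', Finset.mem_univ, if_true]
          omega
        · simp only [Pi.add_apply] at h2 ⊢
          rw [Pi.single_eq_of_ne (by simp)]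
          omega
    · exact hadj.elim

lemma Inv_reach {C₀ C : Vx → ℕ} (h : Inv C₀ C₀) (hr : ReflTransGen (Step Gr) C₀ C) : Inv C₀ C := by
  induction hr with
  | refl => exact h
  | tail _ hs ih => exact Inv_step ih hs

/-- The configuration. -/
def Czero : Vx → ℕ
  | src _ => 37449
  | _ => 0

lemma Czero_size : ∑ v, Czero v = 337041 := by
  rw [sum_Vx]
  simp [Czero]

lemma Czero_wt (i j : Fin 3) : Wt i j Czero = 524286 := by
  rw [Wt, sum_Vx]
  simp only [Czero, zero_mul, Finset.sum_const_zero, add_zero, wij]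
  rw [← Finset.mul_sum]
  have : ∑ s : Fin 3 × Fin 3, (if own true s = i ∨ own false s = j then 2 else 1) = 14 := by
    revert i j
    decide
  rw [this]
  norm_num

/-- The target distribution: one pebble on each of the two targets. -/
def Dd : Vx → ℕ := Pi.single (tgt true) 1 + Pi.single (tgt false) 1

theorem unsolvable : ¬ Solvable Gr Czero Dd := by
  rintro ⟨C', hr, hC'⟩
  obtain ⟨α, β, hW, h1, h2⟩ := Inv_reach (Inv_start rfl rfl) hr
  have h3 : 1 ≤ C' (tgt true) := by
    have := hC' (tgt true)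
    simpa [Dd] using this
  have h4 : 1 ≤ C' (tgt false) := by
    have := hC' (tgt false)
    simpa [Dd] using this
  obtain ⟨i, hi⟩ : ∃ i, 1 ≤ α i := by
    by_contra hcon
    push Not at hcon
    have : ∑ i, α i = 0 := Finset.sum_eq_zero fun i _ => by have := hcon i; omega
    omega
  obtain ⟨j, hj⟩ : ∃ j, 1 ≤ β j := by
    by_contra hcon
    push Not at hcon
    have : ∑ j, β j = 0 := Finset.sum_eq_zero fun j _ => by have := hcon j; omega
    omega
  have h5 := hW i j
  rw [Czero_wt] at h5
  have h6 : 2 * 2 ^ 17 ≤ Wt i j C' := by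
    have h7 : Dd ≤ C' := hC'
    have h8 : C' = Dd + (C' - Dd) := by rw [add_tsub_cancel_of_le h7]
    rw [h8, Wt_add, Dd, Wt_add, Wt_single, Wt_single]
    simp only [wij]
    omega
  omega

end Pool.Agent.Lib.MP_ef3cf3_co
end
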